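import Pool.Agent.H369R3.UT.Defs

/-! Task C of project H369-UT (MP_725b87_an): smoothness of the mollification. -/

set_option autoImplicit false

open Set Filter Topology Metric MeasureTheory
open scoped Convolution

namespace Pool.Agent.H554R3.UTC

open Pool.Agent.H369R3.UT

lemma kern_contDiff {n : ℕ} (r : ℝ) : ContDiff ℝ 3 (kern (n := n) r) := by
  unfold kern
  have h1 : ContDiff ℝ 3 (fun w : Cn n => 1 - ‖w‖ ^ 2 / r ^ 2) :=
    contDiff_const.sub ((contDiff_norm_sq ℝ).div_const _)
  exact Real.smoothTransition.contDiff.comp h1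

lemma kern_hcs {n : ℕ} (r : ℝ) (hr : 0 < r) : HasCompactSupport (kern (n := n) r) := by
  refine HasCompactSupport.of_support_subset_isCompact (isCompact_closedBall (0 : Cn n) r) ?_
  intro w hw
  rw [Function.mem_support] at hw
  rw [mem_closedBall_zero_iff]
  by_contra hcon
  push Not at hcon
  apply hw
  unfold kern
  apply Real.smoothTransition.zero_of_nonpos
  have h1 : r ^ 2 ≤ ‖w‖ ^ 2 := pow_le_pow_left₀ hr.le hcon.le 2
  have h2 : 1 ≤ ‖w‖ ^ 2 / r ^ 2 := by
    rw [le_div_iff₀ (by positivity)]; linarith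
  linarith

lemma kern_even {n : ℕ} (r : ℝ) (w : Cn n) : kern r (-w) = kern r w := by
  unfold kern
  rw [norm_neg]

theorem taskC : Pool.Agent.H369R3.UT.TaskC := by
  intro n μ _ r v hr hv
  have hconv : ContDiff ℝ 3 ((kern (n := n) r) ⋆[ContinuousLinearMap.mul ℝ ℝ, μ] v) :=
    (kern_hcs r hr).contDiff_convolution_left (ContinuousLinearMap.mul ℝ ℝ) (kern_contDiff r)
      hv.locallyIntegrable
  have heq : moll μ r v = fun z => (∫ w, kern (n := n) r w ∂μ)⁻¹ *
      ((kern (n := n) r) ⋆[ContinuousLinearMap.mul ℝ ℝ, μ] v) z := by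
    funext z
    unfold moll
    congr 1
    rw [convolution_def]
    rw [← integral_neg_eq_self]
    refine integral_congr_ae (Eventually.of_forall fun w => ?_)
    simp only [kern_even, ContinuousLinearMap.mul_apply']
    rw [← sub_eq_add_neg]
  rw [heq]
  exact contDiff_const.mul hconv

end Pool.Agent.H554R3.UTC
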