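import Mathlib

/-!
Colour changes on the way to the antipode in a 2-edge-coloured cube: the uniform geodesic flow.
-/

set_option autoImplicit false

namespace Pool.Agent.H554R3.CubeFlow

open Finset

variable {n : ℕ}

/-- flip coordinate `j` of `q` -/
def flp (q : Fin n → Bool) (j : Fin n) : Fin n → Bool := Function.update q j (!(q j))

lemma flp_flp (q : Fin n → Bool) (j : Fin n) : flp (flp q j) j = q := by
  unfold flp
  ext i
  by_cases h : i = j
  · subst h; simp
  · simp [h]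

/-- the equivalence flipping coordinate `j` -/
def flpEquiv (j : Fin n) : (Fin n → Bool) ≃ (Fin n → Bool) where
  toFun q := flp q j
  invFun q := flp q j
  left_inv q := flp_flp q j
  right_inv q := flp_flp q j

/-- number of colour changes when flipping the coordinates of the list one after the other,
starting at `q` with incoming colour `a` -/
def cost (c : (Fin n → Bool) → (Fin n → Bool) → Bool) :
    (Fin n → Bool) → Bool → List (Fin n) → ℕ
  | _, _, [] => 0
  | q, a, j :: l => (if a = c q (flp q j) then 0 else 1) + cost c (flp q j) (c q (flp q j)) l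

/-- least cost over all orders of the set `R` -/
noncomputable def G (c : (Fin n → Bool) → (Fin n → Bool) → Bool)
    (q : Fin n → Bool) (R : Finset (Fin n)) (a : Bool) : ℕ :=
  sInf {m | ∃ l : List (Fin n), l.Nodup ∧ l.toFinset = R ∧ cost c q a l = m}

variable (c : (Fin n → Bool) → (Fin n → Bool) → Bool)

lemma G_spec (q : Fin n → Bool) (R : Finset (Fin n)) (a : Bool) :
    ∃ l : List (Fin n), l.Nodup ∧ l.toFinset = R ∧ cost c q a l = G c q R a := by
  have hne : {m | ∃ l : List (Fin n), l.Nodup ∧ l.toFinset = R ∧ cost c q a l = m}.Nonempty :=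
    ⟨_, R.toList, R.nodup_toList, R.toList_toFinset, rfl⟩
  exact Nat.sInf_mem hne

lemma G_le (q : Fin n → Bool) (R : Finset (Fin n)) (a : Bool) (l : List (Fin n))
    (h1 : l.Nodup) (h2 : l.toFinset = R) : G c q R a ≤ cost c q a l :=
  Nat.sInf_le ⟨l, h1, h2, rfl⟩

lemma cost_le (q : Fin n → Bool) (a b : Bool) (l : List (Fin n)) :
    cost c q a l ≤ 1 + cost c q b l := by
  cases l with
  | nil => simp [cost]
  | cons j l =>
    simp only [cost]
    split_ifs <;> omega

lemma G_swap (q : Fin n → Bool) (R : Finset (Fin n)) (a b : Bool) :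
    G c q R a ≤ 1 + G c q R b := by
  obtain ⟨l, h1, h2, h3⟩ := G_spec c q R b
  rw [← h3]
  exact (G_le c q R a l h1 h2).trans (cost_le c q a b l)

lemma G_step (q : Fin n → Bool) (R : Finset (Fin n)) (j : Fin n) (hj : j ∈ R) :
    G c q R (c q (flp q j)) ≤ G c (flp q j) (R.erase j) (c q (flp q j)) := by
  obtain ⟨l, h1, h2, h3⟩ := G_spec c (flp q j) (R.erase j) (c q (flp q j))
  have hjl : j ∉ l := by
    intro h
    have : j ∈ l.toFinset := List.mem_toFinset.2 h
    rw [h2] at this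
    simp at this
  refine (G_le c q R _ (j :: l) (List.nodup_cons.2 ⟨hjl, h1⟩) ?_).trans ?_
  · rw [List.toFinset_cons, h2, Finset.insert_erase hj]
  · simp [cost, h3]

lemma G_empty (q : Fin n → Bool) (a : Bool) : G c q ∅ a = 0 := by
  have := G_le c q ∅ a [] (by simp) (by simp)
  simpa [cost] using this

/-- the sum over a set of a function of a Boolean label -/
lemma sum_bool (s : Finset (Fin n)) (f : Fin n → Bool) (h : Bool → ℝ) :
    ∑ i ∈ s, h (f i) = ((s.filter fun i => f i = true).card : ℝ) * (h true - h false)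
      + (s.card : ℝ) * h false := by
  have : ∀ i ∈ s, h (f i) = (if f i = true then (h true - h false) else 0) + h false := by
    intro i _
    cases f i <;> simp
  rw [Finset.sum_congr rfl this, Finset.sum_add_distrib, ← Finset.sum_filter]
  simp only [Finset.sum_const, nsmul_eq_mul]

/-- the imbalance at `q` with flipped set `F` -/
noncomputable def dlt (q : Fin n → Bool) (F : Finset (Fin n)) : ℝ :=
  ((F.filter fun i => c q (flp q i) = true).card : ℝ) / F.card
    - ((Fᶜ.filter fun i => c q (flp q i) = true).card : ℝ) / Fᶜ.card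

lemma local_ineq (q : Fin n → Bool) (F : Finset (Fin n)) (h0 : F.card ≠ 0) (h1 : Fᶜ.card ≠ 0) :
    (∑ i ∈ F, (G c q Fᶜ (c q (flp q i)) : ℝ)) / F.card ≤
      |dlt c q F| + (∑ j ∈ Fᶜ, (G c (flp q j) (insert j F)ᶜ (c q (flp q j)) : ℝ)) / Fᶜ.card := by
  have hF : (0 : ℝ) < F.card := by positivity
  have hF' : (0 : ℝ) < Fᶜ.card := by positivity
  have e1 := sum_bool F (fun i => c q (flp q i)) (fun a => (G c q Fᶜ a : ℝ))
  have e2 := sum_bool Fᶜ (fun i => c q (flp q i)) (fun a => (G c q Fᶜ a : ℝ))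
  have h3 : (∑ j ∈ Fᶜ, (G c q Fᶜ (c q (flp q j)) : ℝ)) ≤
      ∑ j ∈ Fᶜ, (G c (flp q j) (insert j F)ᶜ (c q (flp q j)) : ℝ) := by
    refine Finset.sum_le_sum fun j hj => ?_
    have := G_step c q Fᶜ j hj
    have e : (Fᶜ).erase j = (insert j F)ᶜ := by
      ext x; simp [Finset.mem_erase]
    rw [e] at this
    exact_mod_cast this
  have h4 : |(G c q Fᶜ true : ℝ) - G c q Fᶜ false| ≤ 1 := by
    rw [abs_le]
    have a1 := G_swap c q Fᶜ true false
    have a2 := G_swap c q Fᶜ false true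
    have a1' : (G c q Fᶜ true : ℝ) ≤ 1 + G c q Fᶜ false := by exact_mod_cast a1
    have a2' : (G c q Fᶜ false : ℝ) ≤ 1 + G c q Fᶜ true := by exact_mod_cast a2
    constructor <;> linarith
  have h5 : (∑ i ∈ F, (G c q Fᶜ (c q (flp q i)) : ℝ)) / F.card
      - (∑ j ∈ Fᶜ, (G c q Fᶜ (c q (flp q j)) : ℝ)) / Fᶜ.card
      = dlt c q F * ((G c q Fᶜ true : ℝ) - G c q Fᶜ false) := by
    rw [e1, e2, dlt]
    field_simp
    ring
  have h6 : dlt c q F * ((G c q Fᶜ true : ℝ) - G c q Fᶜ false) ≤ |dlt c q F| := by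
    calc _ ≤ |dlt c q F * ((G c q Fᶜ true : ℝ) - G c q Fᶜ false)| := le_abs_self _
      _ = |dlt c q F| * |(G c q Fᶜ true : ℝ) - G c q Fᶜ false| := abs_mul _ _
      _ ≤ |dlt c q F| * 1 := by gcongr
      _ = _ := mul_one _
  have h7 : (∑ j ∈ Fᶜ, (G c q Fᶜ (c q (flp q j)) : ℝ)) / Fᶜ.card ≤
      (∑ j ∈ Fᶜ, (G c (flp q j) (insert j F)ᶜ (c q (flp q j)) : ℝ)) / Fᶜ.card := by
    gcongr
  linarith

/-- exchange lemma for sums over sets of size `t` and `t+1` -/
lemma sum_exchange (t : ℕ) (h : Finset (Fin n) → Fin n → ℝ) :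
    ∑ F ∈ powersetCard t (univ : Finset (Fin n)), ∑ j ∈ Fᶜ, h (insert j F) j
      = ∑ F ∈ powersetCard (t + 1) (univ : Finset (Fin n)), ∑ j ∈ F, h F j := by
  rw [Finset.sum_sigma', Finset.sum_sigma']
  refine Finset.sum_bij' (fun x _ => ⟨insert x.2 x.1, x.2⟩) (fun x _ => ⟨x.1.erase x.2, x.2⟩)
    ?_ ?_ ?_ ?_ ?_
  · rintro ⟨F, j⟩ hx
    simp only [mem_sigma, mem_powersetCard, mem_compl] at hx ⊢
    refine ⟨⟨subset_univ _, ?_⟩, mem_insert_self _ _⟩
    rw [card_insert_of_notMem hx.2, hx.1.2]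
  · rintro ⟨F, j⟩ hx
    simp only [mem_sigma, mem_powersetCard, mem_compl] at hx ⊢
    refine ⟨⟨subset_univ _, ?_⟩, by simp⟩
    rw [card_erase_of_mem hx.2, hx.1.2]; simp
  · rintro ⟨F, j⟩ hx
    simp only [mem_sigma, mem_powersetCard, mem_compl] at hx ⊢
    rw [erase_insert hx.2]
  · rintro ⟨F, j⟩ hx
    simp only [mem_sigma, mem_powersetCard] at hx ⊢
    rw [insert_erase hx.2]
  · rintro ⟨F, j⟩ hx
    rfl

/-- the stage sum -/
noncomputable def Phi (t : ℕ) : ℝ :=
  ∑ q : Fin n → Bool, ∑ F ∈ powersetCard t (univ : Finset (Fin n)),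
    ∑ i ∈ F, (G c q Fᶜ (c q (flp q i)) : ℝ)

lemma next_stage (hc : ∀ x y, c x y = c y x) (t : ℕ) :
    ∑ q : Fin n → Bool, ∑ F ∈ powersetCard t (univ : Finset (Fin n)),
      ∑ j ∈ Fᶜ, (G c (flp q j) (insert j F)ᶜ (c q (flp q j)) : ℝ) = Phi c (t + 1) := by
  have e1 : ∀ q : Fin n → Bool, ∑ F ∈ powersetCard t (univ : Finset (Fin n)),
      ∑ j ∈ Fᶜ, (G c (flp q j) (insert j F)ᶜ (c q (flp q j)) : ℝ)
      = ∑ F ∈ powersetCard (t + 1) (univ : Finset (Fin n)),
        ∑ j ∈ F, (G c (flp q j) Fᶜ (c q (flp q j)) : ℝ) := fun q =>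
    sum_exchange t (fun F j => (G c (flp q j) Fᶜ (c q (flp q j)) : ℝ))
  rw [Finset.sum_congr rfl fun q _ => e1 q, Phi, Finset.sum_comm]
  conv_rhs => rw [Finset.sum_comm]
  refine Finset.sum_congr rfl fun F _ => ?_
  rw [Finset.sum_comm]
  conv_rhs => rw [Finset.sum_comm]
  refine Finset.sum_congr rfl fun j _ => ?_
  rw [← Equiv.sum_comp (flpEquiv j)]
  refine Finset.sum_congr rfl fun q _ => ?_
  simp only [flpEquiv, Equiv.coe_fn_mk, flp_flp]
  rw [hc (flp q j) q]

end Pool.Agent.H554R3.CubeFlow
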