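import Pool.Agent.H554R3.CubeStage

/-!
The average number of colour changes to the antipode is at most `3 √n`.
-/

set_option autoImplicit false

namespace Pool.Agent.H554R3.CubeFlow

open Finset

variable {n : ℕ} (c : (Fin n → Bool) → (Fin n → Bool) → Bool)

lemma iter_stage (hc : ∀ x y, c x y = c y x) (m : ℕ) (hm : m < n) :
    Ph c 1 ≤ ∑ u ∈ range m, (n : ℝ) / (2 * Real.sqrt (n - 1)) *
        (1 / Real.sqrt (((u + 1 : ℕ) : ℝ) * (n - ((u + 1 : ℕ) : ℝ)))) + Ph c (m + 1) := by
  induction m with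
  | zero => simp
  | succ m ih =>
    have h1 := ih (by omega)
    have h2 := stage c hc m hm
    rw [Finset.sum_range_succ]
    linarith

lemma sum_inv_sqrt (m : ℕ) : ∑ u ∈ range m, 1 / Real.sqrt (((u + 1 : ℕ) : ℝ))
    ≤ 2 * Real.sqrt m := by
  induction m with
  | zero => simp
  | succ m ih =>
    rw [Finset.sum_range_succ]
    have hm : (0 : ℝ) ≤ m := by positivity
    have s1 : Real.sqrt (m : ℝ) ^ 2 = m := Real.sq_sqrt hm
    have s2 : Real.sqrt (((m + 1 : ℕ) : ℝ)) ^ 2 = ((m + 1 : ℕ) : ℝ) := Real.sq_sqrt (by positivity)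
    have hp : 0 < Real.sqrt (((m + 1 : ℕ) : ℝ)) := Real.sqrt_pos.2 (by positivity)
    have hp0 : 0 ≤ Real.sqrt (m : ℝ) := Real.sqrt_nonneg _
    set a := Real.sqrt (m : ℝ)
    set b := Real.sqrt (((m + 1 : ℕ) : ℝ))
    have hab : b ^ 2 = a ^ 2 + 1 := by rw [s1, s2]; push_cast; ring
    have : 1 / b ≤ 2 * b - 2 * a := by
      rw [div_le_iff₀ hp]
      nlinarith [sq_nonneg (b - a)]
    linarith

lemma sum_main (hn : 0 < n) : ∑ u ∈ range (n - 1),
    (1 / Real.sqrt (((u + 1 : ℕ) : ℝ) * (n - ((u + 1 : ℕ) : ℝ)))) ≤ 4 := by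
  have n0 : (0 : ℝ) < n := by exact_mod_cast hn
  have sn : 0 < Real.sqrt n := Real.sqrt_pos.2 n0
  have e1 : ∀ u ∈ range (n - 1), (1 / Real.sqrt (((u + 1 : ℕ) : ℝ) * (n - ((u + 1 : ℕ) : ℝ))))
      ≤ (1 / Real.sqrt n) * (1 / Real.sqrt (((u + 1 : ℕ) : ℝ))
        + 1 / Real.sqrt (((n - 1 - 1 - u + 1 : ℕ) : ℝ))) := by
    intro u hu
    rw [mem_range] at hu
    have hcast : (((n - 1 - 1 - u + 1 : ℕ) : ℝ)) = n - ((u + 1 : ℕ) : ℝ) := by
      have : n - 1 - 1 - u + 1 = n - (u + 1) := by omega
      rw [this, Nat.cast_sub (by omega)]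
    rw [hcast]
    set x : ℝ := ((u + 1 : ℕ) : ℝ)
    have hx : 0 < x := by positivity
    set y : ℝ := (n : ℝ) - x with hy
    have hy0 : 0 < y := by
      have h : ((u + 1 : ℕ) : ℝ) < n := by
        have h' : u + 1 < n := by omega
        exact Nat.cast_lt.2 h'
      exact sub_pos.2 h
    have hxy : (n : ℝ) = x + y := by rw [hy]; ring
    rw [Real.sqrt_mul hx.le]
    have sx : 0 < Real.sqrt x := Real.sqrt_pos.2 hx
    have sy : 0 < Real.sqrt y := Real.sqrt_pos.2 hy0
    have key : Real.sqrt n ≤ Real.sqrt x + Real.sqrt y := by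
      rw [hxy]
      rw [Real.sqrt_le_left (by positivity)]
      have a1 := Real.sq_sqrt hx.le
      have a2 := Real.sq_sqrt hy0.le
      nlinarith [mul_pos sx sy]
    have e2 : (1 / Real.sqrt n) * (1 / Real.sqrt x + 1 / Real.sqrt y)
        = (Real.sqrt x + Real.sqrt y) / (Real.sqrt n * (Real.sqrt x * Real.sqrt y)) := by
      field_simp
      ring
    rw [e2, div_le_div_iff₀ (by positivity) (by positivity)]
    have : Real.sqrt n * (Real.sqrt x * Real.sqrt y)
        ≤ (Real.sqrt x + Real.sqrt y) * (Real.sqrt x * Real.sqrt y) :=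
      mul_le_mul_of_nonneg_right key (by positivity)
    linarith
  refine (Finset.sum_le_sum e1).trans ?_
  rw [← Finset.mul_sum, Finset.sum_add_distrib,
    Finset.sum_range_reflect (fun u => 1 / Real.sqrt (((u + 1 : ℕ) : ℝ))) (n - 1)]
  have h1 := sum_inv_sqrt (n - 1)
  have h2 : Real.sqrt (((n - 1 : ℕ) : ℝ)) ≤ Real.sqrt n := by
    apply Real.sqrt_le_sqrt
    have : n - 1 ≤ n := by omega
    exact_mod_cast this
  have h3 : ∑ u ∈ range (n - 1), 1 / Real.sqrt (((u + 1 : ℕ) : ℝ)) ≤ 2 * Real.sqrt n := by linarith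
  calc _ ≤ (1 / Real.sqrt n) * (2 * Real.sqrt n + 2 * Real.sqrt n) := by gcongr
    _ = 4 := by field_simp; norm_num

lemma Ph_one_le (hc : ∀ x y, c x y = c y x) (hn : 2 ≤ n) :
    Ph c 1 ≤ 3 * Real.sqrt n := by
  have h1 := iter_stage c hc (n - 1) (by omega)
  have h2 : n - 1 + 1 = n := by omega
  rw [h2, Ph_last, add_zero, ← Finset.mul_sum] at h1
  refine h1.trans ?_
  have n2 : (2 : ℝ) ≤ n := by exact_mod_cast hn
  have n1 : (0 : ℝ) < n - 1 := by linarith
  have s1 : 0 < Real.sqrt ((n : ℝ) - 1) := Real.sqrt_pos.2 n1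
  have h3 : (n : ℝ) / (2 * Real.sqrt (n - 1)) * 4 ≤ 3 * Real.sqrt n := by
    have e : (n : ℝ) / (2 * Real.sqrt (n - 1)) * 4 = 2 * n / Real.sqrt (n - 1) := by
      field_simp; norm_num
    rw [e, div_le_iff₀ s1, mul_assoc, ← Real.sqrt_mul (by linarith)]
    have : (2 * (n : ℝ)) / 3 ≤ Real.sqrt ((n : ℝ) * (n - 1)) := by
      apply Real.le_sqrt_of_sq_le
      nlinarith
    linarith
  refine le_trans ?_ h3
  exact mul_le_mul_of_nonneg_left (sum_main (by omega)) (by positivity)

/-- the path following a list of directions -/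
def path : (Fin n → Bool) → List (Fin n) → ℕ → (Fin n → Bool)
  | q, [], _ => q
  | q, _ :: _, 0 => q
  | q, j :: l, s + 1 => path (flp q j) l s

lemma path_zero (q : Fin n → Bool) (l : List (Fin n)) : path q l 0 = q := by
  cases l <;> rfl

lemma path_end (l : List (Fin n)) (hl : l.Nodup) (q : Fin n → Bool) (i : Fin n) :
    path q l l.length i = if i ∈ l then !(q i) else q i := by
  induction l generalizing q with
  | nil => simp [path]
  | cons j l ih =>
    rw [List.nodup_cons] at hl
    simp only [List.length_cons, path]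
    rw [ih hl.2]
    by_cases hij : i = j
    · subst hij
      simp [hl.1, flp]
    · simp [hij, flp]

lemma hamming_flp (q : Fin n → Bool) (j : Fin n) : hammingDist q (flp q j) = 1 := by
  unfold hammingDist flp
  rw [Finset.card_eq_one]
  refine ⟨j, ?_⟩
  ext i
  simp only [mem_filter, mem_univ, true_and, mem_singleton]
  by_cases h : i = j
  · subst h; simp
  · simp [h]

lemma path_step (l : List (Fin n)) (q : Fin n → Bool) (i : ℕ) (hi : i < l.length) :
    hammingDist (path q l i) (path q l (i + 1)) = 1 := by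
  induction l generalizing q i with
  | nil => simp at hi
  | cons j l ih =>
    cases i with
    | zero =>
      simp only [path]
      rw [path_zero]
      exact hamming_flp q j
    | succ i =>
      simp only [path]
      exact ih _ _ (by simpa using hi)

lemma path_changes (l : List (Fin n)) (q : Fin n → Bool) (j : Fin n) :
    ((range l.length).filter (fun i => c (path q (j :: l) i) (path q (j :: l) (i + 1))
      ≠ c (path q (j :: l) (i + 1)) (path q (j :: l) (i + 2)))).card
      = cost c (flp q j) (c q (flp q j)) l := by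
  induction l generalizing q j with
  | nil => simp [cost]
  | cons k l ih =>
    have h := ih (flp q j) k
    rw [Finset.card_filter] at h ⊢
    rw [List.length_cons, Finset.sum_range_succ']
    have e : ∀ i, path q (j :: k :: l) (i + 1) = path (flp q j) (k :: l) i := fun i => rfl
    simp only [e]
    rw [h]
    simp only [path, path_zero, cost]
    rw [add_comm]
    congr 1
    by_cases hh : c q (flp q j) = c (flp q j) (flp (flp q j) k) <;> simp [hh]

theorem main (n : ℕ) (c : (Fin n → Bool) → (Fin n → Bool) → Bool)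
    (hc : ∀ x y, c x y = c y x) :
      ∃ f : (Fin n → Bool) → ℕ,
        (∀ v : Fin n → Bool, ∃ k : ℕ, ∃ p : ℕ → (Fin n → Bool),
          p 0 = v ∧ p k = (fun i => !(v i)) ∧
          (∀ i, i < k → hammingDist (p i) (p (i + 1)) = 1) ∧
          ((Finset.range (k - 1)).filter
            (fun i => c (p i) (p (i + 1)) ≠ c (p (i + 1)) (p (i + 2)))).card
            ≤ f v) ∧
        (∑ v : Fin n → Bool, (f v : ℝ)) / (2 : ℝ) ^ n ≤ 3 * Real.sqrt (n : ℝ) := by
  rcases Nat.eq_zero_or_pos n with hn | hn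
  · subst hn
    refine ⟨fun _ => 0, ?_, by simp⟩
    intro v
    refine ⟨0, fun _ => v, rfl, Subsingleton.elim _ _, by simp, by simp⟩
  have : Nonempty (Fin n) := ⟨⟨0, hn⟩⟩
  have hmin : ∀ v : Fin n → Bool, ∃ j : Fin n, ∀ i : Fin n,
      G c (flp v j) {j}ᶜ (c v (flp v j)) ≤ G c (flp v i) {i}ᶜ (c v (flp v i)) := by
    intro v
    exact Finite.exists_min (fun j => G c (flp v j) {j}ᶜ (c v (flp v j)))
  choose J hJ using hmin
  refine ⟨fun v => G c (flp v (J v)) {J v}ᶜ (c v (flp v (J v))), ?_, ?_⟩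
  · intro v
    obtain ⟨l, h1, h2, h3⟩ := G_spec c (flp v (J v)) {J v}ᶜ (c v (flp v (J v)))
    have hjl : J v ∉ l := by
      intro h
      have : J v ∈ l.toFinset := List.mem_toFinset.2 h
      rw [h2] at this
      simp at this
    have hnd : (J v :: l).Nodup := List.nodup_cons.2 ⟨hjl, h1⟩
    refine ⟨(J v :: l).length, path v (J v :: l), path_zero _ _, ?_, ?_, ?_⟩
    · funext i
      rw [path_end _ hnd]
      have hi : i ∈ J v :: l := by
        by_cases h : i = J v
        · simp [h]
        · have : i ∈ l.toFinset := by rw [h2]; simp [h]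
          exact List.mem_cons_of_mem _ (List.mem_toFinset.1 this)
      simp only [hi, if_true]
    · intro i hi
      exact path_step _ _ _ hi
    · have := path_changes c l v (J v)
      simp only [List.length_cons, Nat.add_sub_cancel]
      rw [this, h3]
  · have hsum : (∑ v : Fin n → Bool, (G c (flp v (J v)) {J v}ᶜ (c v (flp v (J v))) : ℝ))
        ≤ Phi c 1 / n := by
      have e0 := next_stage c hc 0
      rw [zero_add] at e0
      rw [← e0, Finset.sum_div]
      refine Finset.sum_le_sum fun v _ => ?_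
      simp only [Finset.powersetCard_zero, Finset.sum_singleton, Finset.compl_empty]
      rw [le_div_iff₀ (by exact_mod_cast hn)]
      have e1 : ∀ j : Fin n, (G c (flp v (J v)) {J v}ᶜ (c v (flp v (J v))) : ℝ)
          ≤ (G c (flp v j) (insert j ∅)ᶜ (c v (flp v j)) : ℝ) := by
        intro j
        have := hJ v j
        exact_mod_cast this
      calc _ = ∑ _j : Fin n, (G c (flp v (J v)) {J v}ᶜ (c v (flp v (J v))) : ℝ) := by
            simp [mul_comm]
        _ ≤ _ := Finset.sum_le_sum fun j _ => e1 j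
    have hPh : (∑ v : Fin n → Bool, (G c (flp v (J v)) {J v}ᶜ (c v (flp v (J v))) : ℝ))
        / (2 : ℝ) ^ n ≤ Ph c 1 := by
      unfold Ph
      have : Phi c 1 / (2 ^ n * (Nat.choose n 1 : ℝ) * ((1 : ℕ) : ℝ)) = (Phi c 1 / n) / 2 ^ n := by
        rw [Nat.choose_one_right]
        simp only [Nat.cast_one, mul_one]
        rw [div_div, mul_comm]
      rw [this]
      gcongr
    refine hPh.trans ?_
    rcases Nat.lt_or_ge n 2 with h | h
    · have : n = 1 := by omega
      subst this
      rw [Ph_last]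
      positivity
    · exact Ph_one_le c hc h

end Pool.Agent.H554R3.CubeFlow
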