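import Pool.Agent.H554R3.CubeFlow

/-!
Second moment of a centred sum over a random set of given size.
-/

set_option autoImplicit false

namespace Pool.Agent.H554R3.CubeFlow

open Finset

variable {n : ℕ}

lemma count_pair (u : ℕ) (i j : Fin n) (hij : i ≠ j) :
    (((powersetCard (u + 1) (univ : Finset (Fin n))).filter fun F => i ∈ F ∧ j ∈ F).card : ℝ)
      = (Nat.choose (n - 1) u : ℝ) - Nat.choose (n - 2) u := by
  have hn : 2 ≤ n := by
    have h : ({i, j} : Finset (Fin n)).card ≤ (univ : Finset (Fin n)).card :=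
      card_le_card (subset_univ _)
    rw [card_pair hij] at h
    simpa using h
  have e : ((powersetCard (u + 1) (univ : Finset (Fin n))).filter fun F => i ∈ F ∧ j ∈ F)
      = (powersetCard (u + 1) (univ : Finset (Fin n))).filter fun F => ({i, j} : Finset (Fin n)) ⊆ F := by
    refine filter_congr fun F _ => ?_
    simp [insert_subset_iff]
  rw [e]
  rcases Nat.eq_zero_or_pos u with hu | hu
  · subst hu
    have : ((powersetCard (0 + 1) (univ : Finset (Fin n))).filter
        fun F => ({i, j} : Finset (Fin n)) ⊆ F) = ∅ := by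
      rw [filter_eq_empty_iff]
      intro F hF hs
      rw [mem_powersetCard] at hF
      have := card_le_card hs
      rw [card_pair hij] at this
      omega
    rw [this]
    simp
  · have := Finset.card_filter_powersetCard_subset ({i, j} : Finset (Fin n))
      (univ : Finset (Fin n)) (u + 1) (subset_univ _) (by rw [card_pair hij]; omega)
    rw [this, card_pair hij]
    obtain ⟨v, rfl⟩ : ∃ v, u = v + 1 := ⟨u - 1, by omega⟩
    obtain ⟨m, rfl⟩ : ∃ m, n = m + 2 := ⟨n - 2, by omega⟩
    have h2 : m + 2 - 1 = m + 1 := by omega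
    have h3 : m + 2 - 2 = m := by omega
    rw [h2, h3, Nat.choose_succ_succ m v]
    simp

lemma count_single (u : ℕ) (i : Fin n) :
    (((powersetCard (u + 1) (univ : Finset (Fin n))).filter fun F => i ∈ F).card : ℝ)
      = (Nat.choose (n - 1) u : ℝ) := by
  have e : ((powersetCard (u + 1) (univ : Finset (Fin n))).filter fun F => i ∈ F)
      = (powersetCard (u + 1) (univ : Finset (Fin n))).filter fun F => ({i} : Finset (Fin n)) ⊆ F := by
    refine filter_congr fun F _ => ?_
    simp
  rw [e]
  have := Finset.card_filter_powersetCard_subset ({i} : Finset (Fin n))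
      (univ : Finset (Fin n)) (u + 1) (subset_univ _) (by simp)
  rw [this]
  simp

lemma second_moment (u : ℕ) (a : Fin n → ℝ) (ha : ∑ i, a i = 0) :
    ∑ F ∈ powersetCard (u + 1) (univ : Finset (Fin n)), (∑ i ∈ F, a i) ^ 2
      = (Nat.choose (n - 2) u : ℝ) * ∑ i, a i ^ 2 := by
  have e1 : ∀ F : Finset (Fin n), (∑ i ∈ F, a i) ^ 2
      = ∑ i, ∑ j, if i ∈ F ∧ j ∈ F then a i * a j else 0 := by
    intro F
    rw [sq, Finset.sum_mul_sum]
    have : ∀ i, (∑ j, if i ∈ F ∧ j ∈ F then a i * a j else 0)
        = if i ∈ F then ∑ j ∈ F, a i * a j else 0 := by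
      intro i
      by_cases hi : i ∈ F
      · simp [hi, Finset.sum_ite_mem]
      · simp [hi]
    rw [Finset.sum_congr rfl fun i _ => this i]
    rw [Finset.sum_ite_mem]
    simp
  rw [Finset.sum_congr rfl fun F _ => e1 F, Finset.sum_comm]
  have e2 : ∀ i, ∑ F ∈ powersetCard (u + 1) (univ : Finset (Fin n)),
      ∑ j, (if i ∈ F ∧ j ∈ F then a i * a j else 0)
      = ∑ j, a i * a j * (if i = j then (Nat.choose (n - 1) u : ℝ)
          else (Nat.choose (n - 1) u : ℝ) - Nat.choose (n - 2) u) := by
    intro i
    rw [Finset.sum_comm]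
    refine Finset.sum_congr rfl fun j _ => ?_
    rw [← Finset.sum_filter, Finset.sum_const, nsmul_eq_mul, mul_comm]
    congr 1
    by_cases hij : i = j
    · subst hij
      simp only [and_self, if_true]
      exact count_single u i
    · simp only [hij, if_false]
      exact count_pair u i j hij
  rw [Finset.sum_congr rfl fun i _ => e2 i]
  have e3 : ∀ i, ∑ j, a i * a j * (if i = j then (Nat.choose (n - 1) u : ℝ)
          else (Nat.choose (n - 1) u : ℝ) - Nat.choose (n - 2) u)
      = (Nat.choose (n - 2) u : ℝ) * a i ^ 2 := by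
    intro i
    have : ∀ j, a i * a j * (if i = j then (Nat.choose (n - 1) u : ℝ)
          else (Nat.choose (n - 1) u : ℝ) - Nat.choose (n - 2) u)
        = (if i = j then (Nat.choose (n - 2) u : ℝ) * (a i * a j) else 0)
          + ((Nat.choose (n - 1) u : ℝ) - Nat.choose (n - 2) u) * a i * a j := by
      intro j
      split_ifs <;> ring
    rw [Finset.sum_congr rfl fun j _ => this j, Finset.sum_add_distrib, ← Finset.mul_sum, ha]
    simp [sq]
  rw [Finset.sum_congr rfl fun i _ => e3 i, ← Finset.mul_sum]

end Pool.Agent.H554R3.CubeFlow
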