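import Pool.Agent.H554R3.CubeMoment

/-!
One stage of the geodesic flow and the resulting bound.
-/

set_option autoImplicit false

namespace Pool.Agent.H554R3.CubeFlow

open Finset

variable {n : ℕ} (c : (Fin n → Bool) → (Fin n → Bool) → Bool)

lemma dlt_eq (q : Fin n → Bool) (F : Finset (Fin n)) (t : ℕ) (hF : F.card = t) (h0 : 0 < t)
    (h1 : t < n) :
    dlt c q F = (n : ℝ) / (t * (n - t)) *
      ∑ i ∈ F, ((if c q (flp q i) = true then (1 : ℝ) else 0)
        - (∑ j, (if c q (flp q j) = true then (1 : ℝ) else 0)) / n) := by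
  have hc' : (Fᶜ.card : ℝ) = n - t := by
    rw [card_compl, Fintype.card_fin, hF, Nat.cast_sub h1.le]
  have hs : (∑ j, (if c q (flp q j) = true then (1 : ℝ) else 0))
      = ((F.filter fun i => c q (flp q i) = true).card : ℝ)
        + ((Fᶜ.filter fun i => c q (flp q i) = true).card : ℝ) := by
    rw [← Finset.sum_add_sum_compl F]
    simp [Finset.sum_boole]
  rw [Finset.sum_sub_distrib, hs, Finset.sum_const, hF, nsmul_eq_mul, Finset.sum_boole]
  unfold dlt
  rw [hF, hc']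
  have t0 : (t : ℝ) ≠ 0 := by positivity
  have n0 : (n : ℝ) ≠ 0 := by
    have : 0 < n := by omega
    positivity
  have nt : (n : ℝ) - t ≠ 0 := by
    have : (t : ℝ) < n := by exact_mod_cast h1
    linarith
  field_simp
  ring

lemma centred_sq_le (x : Fin n → ℝ) (hx : ∀ i, x i = 0 ∨ x i = 1) (hn : 0 < n) :
    ∑ i, (x i - (∑ j, x j) / n) ^ 2 ≤ (n : ℝ) / 4 := by
  have n0 : (0 : ℝ) < n := by exact_mod_cast hn
  set s : ℝ := ∑ j, x j with hs
  have e : ∑ i, (x i - s / n) ^ 2 = s - s ^ 2 / n := by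
    have e1 : ∀ i, (x i - s / n) ^ 2 = x i - 2 * (s / n) * x i + (s / n) ^ 2 := by
      intro i
      rcases hx i with h | h <;> rw [h] <;> ring
    rw [Finset.sum_congr rfl fun i _ => e1 i, Finset.sum_add_distrib, Finset.sum_sub_distrib,
      ← Finset.mul_sum, ← hs]
    simp only [Finset.sum_const, card_univ, Fintype.card_fin, nsmul_eq_mul]
    field_simp
    ring
  rw [e]
  have : 0 ≤ (s - n / 2) ^ 2 / n := by positivity
  have e2 : (s - n / 2) ^ 2 / n = s ^ 2 / n - s + n / 4 := by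
    field_simp
    ring
  rw [e2] at this
  linarith

lemma sum_dlt_sq (q : Fin n → Bool) (u : ℕ) (h1 : u + 1 < n) :
    ∑ F ∈ powersetCard (u + 1) (univ : Finset (Fin n)), dlt c q F ^ 2
      ≤ ((n : ℝ) / (((u + 1 : ℕ) : ℝ) * (n - ((u + 1 : ℕ) : ℝ)))) ^ 2 *
        ((Nat.choose (n - 2) u : ℝ) * (n / 4)) := by
  have e : ∀ F ∈ powersetCard (u + 1) (univ : Finset (Fin n)), dlt c q F ^ 2
      = ((n : ℝ) / (((u + 1 : ℕ) : ℝ) * (n - ((u + 1 : ℕ) : ℝ)))) ^ 2 *
       (∑ i ∈ F, ((if c q (flp q i) = true then (1 : ℝ) else 0)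
        - (∑ j, (if c q (flp q j) = true then (1 : ℝ) else 0)) / n)) ^ 2 := by
    intro F hF
    rw [mem_powersetCard] at hF
    rw [dlt_eq c q F (u + 1) hF.2 (by omega) h1, mul_pow]
  rw [Finset.sum_congr rfl e, ← Finset.mul_sum, second_moment]
  · gcongr
    apply centred_sq_le (fun i => if c q (flp q i) = true then (1 : ℝ) else 0)
    · intro i
      by_cases h : c q (flp q i) = true <;> simp [h]
    · omega
  · have n0 : (n : ℝ) ≠ 0 := by
      have : 0 < n := by omega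
      positivity
    rw [Finset.sum_sub_distrib]
    simp only [Finset.sum_const, card_univ, Fintype.card_fin, nsmul_eq_mul]
    field_simp
    ring

lemma choose_ratio (u : ℕ) (h1 : u + 1 < n) :
    (Nat.choose (n - 2) u : ℝ) * (n * (n - 1)) =
      Nat.choose n (u + 1) * (((u + 1 : ℕ) : ℝ) * (n - ((u + 1 : ℕ) : ℝ))) := by
  obtain ⟨m, rfl⟩ : ∃ m, n = m + 2 := ⟨n - 2, by omega⟩
  have hu : u ≤ m := by omega
  have a1 : (m + 2) * Nat.choose (m + 1) u = Nat.choose (m + 2) (u + 1) * (u + 1) :=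
    Nat.add_one_mul_choose_eq (m + 1) u
  have a2 : Nat.choose (m + 1) u * (m + 1 - u) = (m + 1) * Nat.choose m u := by
    have := Nat.choose_mul_succ_eq m u
    rw [mul_comm (m + 1)]
    exact this.symm
  have a1' : ((m : ℝ) + 2) * Nat.choose (m + 1) u = Nat.choose (m + 2) (u + 1) * (u + 1) := by
    exact_mod_cast a1
  have a2' : (Nat.choose (m + 1) u : ℝ) * (m + 1 - u) = (m + 1) * Nat.choose m u := by
    have h : ((m + 1 - u : ℕ) : ℝ) = (m : ℝ) + 1 - u := by
      rw [Nat.cast_sub (by omega)]; push_cast; ring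
    rw [← h]
    exact_mod_cast a2
  have e : m + 2 - 2 = m := by omega
  rw [e]
  push_cast
  have : (Nat.choose (m + 2) (u + 1) : ℝ) * ((u + 1) * (m + 2 - (u + 1)))
      = ((m : ℝ) + 2) * ((Nat.choose (m + 1) u : ℝ) * (m + 1 - u)) := by
    calc _ = (Nat.choose (m + 2) (u + 1) : ℝ) * (u + 1) * (m + 1 - u) := by ring
      _ = ((m : ℝ) + 2) * Nat.choose (m + 1) u * (m + 1 - u) := by rw [a1']
      _ = _ := by ring
  rw [this, a2']
  ring

lemma sum_abs_dlt (q : Fin n → Bool) (u : ℕ) (h1 : u + 1 < n) :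
    ∑ F ∈ powersetCard (u + 1) (univ : Finset (Fin n)), |dlt c q F|
      ≤ (Nat.choose n (u + 1) : ℝ) * ((n : ℝ) / (2 * Real.sqrt (n - 1)) *
        (1 / Real.sqrt (((u + 1 : ℕ) : ℝ) * (n - ((u + 1 : ℕ) : ℝ))))) := by
  set C : ℝ := (Nat.choose n (u + 1) : ℝ) with hC
  set w : ℝ := ((u + 1 : ℕ) : ℝ) * (n - ((u + 1 : ℕ) : ℝ)) with hw
  have n0 : (0 : ℝ) < n := by
    have : 0 < n := by omega
    exact_mod_cast this
  have n1 : (0 : ℝ) < n - 1 := by
    have : (1 : ℝ) < n := by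
      have : 1 < n := by omega
      exact_mod_cast this
    linarith
  have wpos : 0 < w := by
    rw [hw]
    have : (((u + 1 : ℕ) : ℝ)) < n := by exact_mod_cast h1
    have h3 : (0 : ℝ) < ((u + 1 : ℕ) : ℝ) := by positivity
    exact mul_pos h3 (by linarith)
  have Cpos : 0 < C := by
    rw [hC]
    exact_mod_cast Nat.choose_pos (by omega)
  have h2 := sum_dlt_sq c q u h1
  rw [← hw] at h2
  have h3 := choose_ratio (n := n) u h1
  rw [← hw, ← hC] at h3
  have h4 : (Nat.choose (n - 2) u : ℝ) = C * w / (n * (n - 1)) := by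
    rw [← h3]; field_simp
  rw [h4] at h2
  have h5 : (∑ F ∈ powersetCard (u + 1) (univ : Finset (Fin n)), |dlt c q F|) ^ 2
      ≤ C * ∑ F ∈ powersetCard (u + 1) (univ : Finset (Fin n)), |dlt c q F| ^ 2 := by
    have := sq_sum_le_card_mul_sum_sq (s := powersetCard (u + 1) (univ : Finset (Fin n)))
      (f := fun F => |dlt c q F|)
    rw [card_powersetCard, card_univ, Fintype.card_fin] at this
    exact this
  simp only [sq_abs] at h5
  have h6 : (∑ F ∈ powersetCard (u + 1) (univ : Finset (Fin n)), |dlt c q F|) ^ 2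
      ≤ (C * ((n : ℝ) / (2 * Real.sqrt (n - 1)) * (1 / Real.sqrt w))) ^ 2 := by
    refine h5.trans ?_
    have e : (C * ((n : ℝ) / (2 * Real.sqrt (n - 1)) * (1 / Real.sqrt w))) ^ 2
        = C * ((n / w) ^ 2 * (C * w / (n * (n - 1)) * (n / 4))) := by
      have s1 : Real.sqrt (n - 1) ^ 2 = n - 1 := Real.sq_sqrt n1.le
      have s2 : Real.sqrt w ^ 2 = w := Real.sq_sqrt wpos.le
      have : (C * ((n : ℝ) / (2 * Real.sqrt (n - 1)) * (1 / Real.sqrt w))) ^ 2
        = C ^ 2 * n ^ 2 / (4 * Real.sqrt (n - 1) ^ 2 * Real.sqrt w ^ 2) := by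
        field_simp
        ring
      rw [this, s1, s2]
      field_simp
    rw [e]
    exact mul_le_mul_of_nonneg_left h2 Cpos.le
  refine abs_le_of_sq_le_sq' h6 ?_ |>.2
  positivity

/-- normalised stage sum -/
noncomputable def Ph (t : ℕ) : ℝ := Phi c t / (2 ^ n * (Nat.choose n t : ℝ) * t)

lemma stage (hc : ∀ x y, c x y = c y x) (u : ℕ) (h1 : u + 1 < n) :
    Ph c (u + 1) ≤ (n : ℝ) / (2 * Real.sqrt (n - 1)) *
        (1 / Real.sqrt (((u + 1 : ℕ) : ℝ) * (n - ((u + 1 : ℕ) : ℝ)))) + Ph c (u + 2) := by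
  set B : ℝ := (n : ℝ) / (2 * Real.sqrt (n - 1)) *
        (1 / Real.sqrt (((u + 1 : ℕ) : ℝ) * (n - ((u + 1 : ℕ) : ℝ)))) with hB
  have h2 : Phi c (u + 1) / ((u + 1 : ℕ) : ℝ) ≤
      2 ^ n * (Nat.choose n (u + 1) : ℝ) * B + Phi c (u + 2) / (n - ((u + 1 : ℕ) : ℝ)) := by
    have l1 : Phi c (u + 1) / ((u + 1 : ℕ) : ℝ)
        ≤ ∑ q : Fin n → Bool, (∑ F ∈ powersetCard (u + 1) (univ : Finset (Fin n)), |dlt c q F|
          + ∑ F ∈ powersetCard (u + 1) (univ : Finset (Fin n)),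
            (∑ j ∈ Fᶜ, (G c (flp q j) (insert j F)ᶜ (c q (flp q j)) : ℝ)) /
              (n - ((u + 1 : ℕ) : ℝ))) := by
      unfold Phi
      rw [Finset.sum_div]
      refine Finset.sum_le_sum fun q _ => ?_
      rw [Finset.sum_div, ← Finset.sum_add_distrib]
      refine Finset.sum_le_sum fun F hF => ?_
      rw [mem_powersetCard] at hF
      have hcard : (Fᶜ.card : ℝ) = n - ((u + 1 : ℕ) : ℝ) := by
        rw [card_compl, Fintype.card_fin, hF.2, Nat.cast_sub h1.le]
      have := local_ineq c q F (by rw [hF.2]; omega)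
        (by rw [card_compl, Fintype.card_fin, hF.2]; omega)
      rw [hcard, hF.2] at this
      exact this
    refine l1.trans ?_
    rw [Finset.sum_add_distrib]
    refine add_le_add ?_ ?_
    · calc _ ≤ ∑ q : Fin n → Bool, (Nat.choose n (u + 1) : ℝ) * B :=
          Finset.sum_le_sum fun q _ => sum_abs_dlt c q u h1
        _ = _ := by
          rw [Finset.sum_const, card_univ, nsmul_eq_mul]
          simp
          ring
    · rw [← next_stage c hc (u + 1), Finset.sum_div]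
      refine le_of_eq (Finset.sum_congr rfl fun q _ => ?_)
      rw [Finset.sum_div]
  have hu : (0 : ℝ) < ((u + 1 : ℕ) : ℝ) := by positivity
  have hnu : (0 : ℝ) < n - ((u + 1 : ℕ) : ℝ) := by
    have : (((u + 1 : ℕ) : ℝ)) < n := by exact_mod_cast h1
    linarith
  have Cpos : (0 : ℝ) < (Nat.choose n (u + 1) : ℝ) := by
    exact_mod_cast Nat.choose_pos (by omega)
  have hch : (Nat.choose n (u + 2) : ℝ) * ((u + 2 : ℕ) : ℝ)
      = Nat.choose n (u + 1) * (n - ((u + 1 : ℕ) : ℝ)) := by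
    have := Nat.choose_succ_right_eq n (u + 1)
    have h : ((n - (u + 1) : ℕ) : ℝ) = n - ((u + 1 : ℕ) : ℝ) := Nat.cast_sub h1.le
    rw [← h]
    exact_mod_cast this
  unfold Ph
  have e2 : (2 : ℝ) ^ n * (Nat.choose n (u + 2) : ℝ) * ((u + 2 : ℕ) : ℝ)
      = 2 ^ n * Nat.choose n (u + 1) * (n - ((u + 1 : ℕ) : ℝ)) := by
    rw [mul_assoc, hch]; ring
  rw [e2]
  have p2 : (0 : ℝ) < 2 ^ n := by positivity
  have e3 : Phi c (u + 1) / (2 ^ n * (Nat.choose n (u + 1) : ℝ) * ((u + 1 : ℕ) : ℝ))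
      = (Phi c (u + 1) / ((u + 1 : ℕ) : ℝ)) / (2 ^ n * (Nat.choose n (u + 1) : ℝ)) := by
    field_simp
  rw [e3, div_le_iff₀ (by positivity)]
  refine h2.trans (le_of_eq ?_)
  field_simp

lemma Ph_last : Ph c n = 0 := by
  unfold Ph Phi
  have : ∀ q : Fin n → Bool, ∑ F ∈ powersetCard n (univ : Finset (Fin n)),
    ∑ i ∈ F, (G c q Fᶜ (c q (flp q i)) : ℝ) = 0 := by
    intro q
    refine Finset.sum_eq_zero fun F hF => ?_
    rw [mem_powersetCard] at hF
    have hF' : F = univ := by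
      rw [← card_eq_iff_eq_univ, hF.2, Fintype.card_fin]
    subst hF'
    refine Finset.sum_eq_zero fun i _ => ?_
    simp [G_empty]
  rw [Finset.sum_congr rfl fun q _ => this q]
  simp

end Pool.Agent.H554R3.CubeFlow
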