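import Pool.Agent.H753R3.SC.Stmts

set_option autoImplicit false

namespace Pool.Agent.H554R3.SC

open Set Pool.Agent.H753R3.SC

theorem taskB (hA : TaskA) : TaskB := by
  classical
  intro P _ _ _ hdc B hB hBV K V hK hV hKV
  rcases K.eq_empty_or_nonempty with rfl | ⟨x0, hx0⟩
  · exact ⟨∅, by simp, by simp⟩
  have hne : (B ∩ V).Nonempty := by
    obtain ⟨b, hb, _⟩ := hBV V hV x0 (hKV hx0)
    exact ⟨b, hb⟩
  obtain ⟨b, hb⟩ := (hB.mono inter_subset_left : (B ∩ V).Countable).exists_eq_range hne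
  by_contra hcon
  push Not at hcon
  have hz : ∀ k : ℕ, ∃ z ∈ K, ∀ i ≤ k, ¬ b i ≤ z := by
    intro k
    obtain ⟨x, hx, hx2⟩ := hcon ((Finset.range (k + 1)).image b) (by
      intro h hh
      rw [Finset.mem_image] at hh
      obtain ⟨i, _, rfl⟩ := hh
      rw [hb]
      exact mem_range_self i)
    refine ⟨x, hx, fun i hi => hx2 (b i) ?_⟩
    rw [Finset.mem_image]
    exact ⟨i, Finset.mem_range.2 (by omega), rfl⟩
  choose z hzK hz using hz
  obtain ⟨c, hcV, hc⟩ := hA P hdc K V hK hV hKV z hzK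
  obtain ⟨b0, hb0, hb0c⟩ := hBV V hV c hcV
  rw [hb] at hb0
  obtain ⟨i, rfl⟩ := hb0
  obtain ⟨n, hn, hcn⟩ := hc i
  exact hz n i hn (hb0c.trans hcn)

end Pool.Agent.H554R3.SC
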