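import Pool.Agent.H554R3.TriCol

/-!
Upper bound for the number of proper colourings of complete bipartite graphs.
-/

set_option autoImplicit false

namespace Pool.Agent.H554R3.Tri

open Finset

lemma bip_bound (s t r : ℕ) :
    (Nat.card (Col (completeBipartiteGraph (Fin s) (Fin t)) (r + 2)) : ℝ) ≤
      ((r : ℝ) + 2) ^ (s + t) * (((r : ℝ) + 1) / (r + 2)) ^ (s * t) *
        (1 + (s ^ 2 * 2 ^ (s * t + 1)) / ((r : ℝ) + 2) ^ 2) := by
  classical
  set R : ℝ := (r : ℝ) + 2 with hR
  have hR2 : 2 ≤ R := by rw [hR]; linarith [(Nat.cast_nonneg r : (0 : ℝ) ≤ r)]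
  have hR0 : 0 < R := by linarith
  set ρ : ℝ := ((r : ℝ) + 1) / (r + 2) with hρ
  have hρe : ρ = 1 - 1 / R := by
    rw [hρ, ← hR, eq_sub_iff_add_eq, ← add_div, div_eq_one_iff_eq hR0.ne', hR]
    ring
  have hρ0 : 0 < ρ := by rw [hρ]; positivity
  have hρ1 : ρ ≤ 1 := by
    rw [hρe]; have : 0 ≤ 1 / R := by positivity
    linarith
  rw [card_col_bip]
  push_cast
  have hone : (1 : ℝ) ≤ ρ ^ (s * t) * (1 + 2 ^ (s * t + 1) / R) := by
    have h1 : 1 ≤ ρ * (1 + 2 / R) := by
      rw [hρe]
      have h2 : (1 - 1 / R) * (1 + 2 / R) = 1 + (1 / R) * (1 - 2 / R) := by ring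
      rw [h2]
      have h3 : 2 / R ≤ 1 := by rw [div_le_one hR0]; exact hR2
      have h4 : 0 ≤ (1 / R) * (1 - 2 / R) := mul_nonneg (by positivity) (by linarith)
      linarith
    have h5 : (1 : ℝ) ≤ (ρ * (1 + 2 / R)) ^ (s * t) := one_le_pow₀ h1
    rw [mul_pow] at h5
    have h6 : (1 + 2 / R) ^ (s * t) ≤ 1 + (2 ^ (s * t) - 1) * (2 / R) :=
      one_add_pow_le _ _ (by positivity) (by rw [div_le_one hR0]; exact hR2)
    have h7 : (1 : ℝ) + (2 ^ (s * t) - 1) * (2 / R) ≤ 1 + 2 ^ (s * t + 1) / R := by
      have : (2 ^ (s * t) - 1) * (2 / R) = 2 ^ (s * t + 1) / R - 2 / R := by ring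
      rw [this]
      have : 0 ≤ 2 / R := by positivity
      linarith
    calc (1 : ℝ) ≤ ρ ^ (s * t) * (1 + 2 / R) ^ (s * t) := h5
      _ ≤ ρ ^ (s * t) * (1 + 2 ^ (s * t + 1) / R) := by
        apply mul_le_mul_of_nonneg_left (h6.trans h7) (by positivity)
  have hterm : ∀ x : Fin s → Fin (r + 2),
      (((r + 2 - (univ.image x).card : ℕ) : ℝ)) ^ t ≤
        R ^ t * ρ ^ (s * t) + (if Function.Injective x then 0 else
          R ^ t * ρ ^ (s * t) * (2 ^ (s * t + 1) / R)) := by
    intro x
    have hm : (univ.image x).card ≤ r + 2 := by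
      have := card_le_univ (univ.image x)
      simpa using this
    by_cases hx : Function.Injective x
    · simp only [hx, if_true, add_zero]
      have hc : (univ.image x).card = s := by
        rw [card_image_of_injective _ hx]; simp
      rw [hc] at hm ⊢
      rw [mul_comm s t, pow_mul', ← mul_pow]
      apply pow_le_pow_left₀ (Nat.cast_nonneg _)
      rw [Nat.cast_sub hm]
      have hb := one_add_mul_le_pow (a := -(1 / R)) (by
        have : 1 / R ≤ 1 := by rw [div_le_one hR0]; linarith
        linarith) s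
      have e : (1 : ℝ) + -(1 / R) = ρ := by rw [hρe]; ring
      rw [e] at hb
      have := mul_le_mul_of_nonneg_left hb hR0.le
      calc ((r + 2 : ℕ) : ℝ) - s = R * (1 + s * -(1 / R)) := by
            push_cast; rw [← hR]; field_simp; ring
        _ ≤ R * ρ ^ s := this
    · simp only [hx, if_false]
      have h1 : (((r + 2 - (univ.image x).card : ℕ) : ℝ)) ^ t ≤ R ^ t := by
        apply pow_le_pow_left₀ (Nat.cast_nonneg _)
        have : r + 2 - (univ.image x).card ≤ r + 2 := Nat.sub_le _ _
        have := (Nat.cast_le (α := ℝ)).2 this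
        push_cast at this ⊢
        exact this
      calc _ ≤ R ^ t := h1
        _ = R ^ t * 1 := (mul_one _).symm
        _ ≤ R ^ t * (ρ ^ (s * t) * (1 + 2 ^ (s * t + 1) / R)) := by gcongr
        _ = _ := by ring
  have hinj : ((univ.filter fun x : Fin s → Fin (r + 2) => Function.Injective x).card : ℝ)
      = ((r + 2).descFactorial s : ℝ) := by
    have h1 : (univ.filter fun x : Fin s → Fin (r + 2) => Function.Injective x).card
        = Fintype.card (Fin s ↪ Fin (r + 2)) := by
      rw [← Fintype.card_subtype]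
      exact Fintype.card_congr (Equiv.subtypeInjectiveEquivEmbedding _ _)
    rw [h1, Fintype.card_embedding_eq, Fintype.card_fin, Fintype.card_fin]
  have hnon : ((univ.filter fun x : Fin s → Fin (r + 2) => ¬ Function.Injective x).card : ℝ)
      ≤ R ^ s * (s ^ 2 / R) := by
    have h1 := card_filter_add_card_filter_not (s := (univ : Finset (Fin s → Fin (r + 2))))
      (p := fun x => Function.Injective x)
    have h2 : ((univ.filter fun x : Fin s → Fin (r + 2) => Function.Injective x).card : ℝ)
      + ((univ.filter fun x : Fin s → Fin (r + 2) => ¬ Function.Injective x).card : ℝ)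
      = R ^ s := by
      have := congrArg (Nat.cast (R := ℝ)) h1
      push_cast at this
      rw [this]
      simp [hR]
    have h3 := noninj (r + 2) s
    push_cast at h3
    rw [← hR] at h3
    rw [hinj] at h2
    have h4 : ((univ.filter fun x : Fin s → Fin (r + 2) => ¬ Function.Injective x).card : ℝ)
      = R ^ s - ((r + 2).descFactorial s : ℝ) := by linarith
    rw [h4]
    have h5 : R * (R ^ s - ((r + 2).descFactorial s : ℝ)) ≤ s ^ 2 * R ^ s := by
      have : R * R ^ s = R ^ (s + 1) := by ring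
      rw [mul_sub, this]
      linarith
    calc R ^ s - ((r + 2).descFactorial s : ℝ)
        = (R * (R ^ s - ((r + 2).descFactorial s : ℝ))) / R := by field_simp
      _ ≤ (s ^ 2 * R ^ s) / R := by gcongr
      _ = R ^ s * (s ^ 2 / R) := by ring
  calc (∑ x : Fin s → Fin (r + 2), (((r + 2 - (univ.image x).card : ℕ) : ℝ)) ^ t)
      ≤ ∑ x : Fin s → Fin (r + 2), (R ^ t * ρ ^ (s * t) + (if Function.Injective x then 0 else
          R ^ t * ρ ^ (s * t) * (2 ^ (s * t + 1) / R))) := Finset.sum_le_sum fun x _ => hterm x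
    _ = R ^ s * (R ^ t * ρ ^ (s * t)) +
        ((univ.filter fun x : Fin s → Fin (r + 2) => ¬ Function.Injective x).card : ℝ) *
          (R ^ t * ρ ^ (s * t) * (2 ^ (s * t + 1) / R)) := by
      rw [Finset.sum_add_distrib]
      congr 1
      · simp [hR]
      · rw [← Finset.sum_filter_add_sum_filter_not univ (fun x : Fin s → Fin (r + 2) =>
          Function.Injective x)]
        rw [Finset.sum_eq_zero (s := univ.filter fun x : Fin s → Fin (r + 2) =>
          Function.Injective x) (by intro x hx; simp [(mem_filter.1 hx).2])]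
        rw [zero_add, Finset.sum_congr rfl (g := fun _ => R ^ t * ρ ^ (s * t) *
          (2 ^ (s * t + 1) / R)) (by intro x hx; simp [(mem_filter.1 hx).2])]
        rw [Finset.sum_const, nsmul_eq_mul]
    _ ≤ R ^ s * (R ^ t * ρ ^ (s * t)) + (R ^ s * (s ^ 2 / R)) *
          (R ^ t * ρ ^ (s * t) * (2 ^ (s * t + 1) / R)) := by gcongr
    _ = _ := by
      have e1 : R ^ (s + t) = R ^ s * R ^ t := pow_add _ _ _
      rw [e1]
      field_simp

end Pool.Agent.H554R3.Tri
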