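import Pool.Agent.H554R3.TriCount

/-!
Numbers of proper colourings of small graphs and of complete bipartite graphs.
-/

set_option autoImplicit false

namespace Pool.Agent.H554R3.Tri

open Finset

lemma card_col_top (k R : ℕ) :
    Nat.card (Col (⊤ : SimpleGraph (Fin k)) R) = R.descFactorial k := by
  have e : Col (⊤ : SimpleGraph (Fin k)) R ≃ (Fin k ↪ Fin R) :=
    { toFun := fun c => ⟨c.1, fun i j h => by
        by_contra hne
        exact c.2 i j (by simpa using hne) h⟩
      invFun := fun f => ⟨f, fun i j hij h => by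
        have := f.injective h
        simp [this] at hij⟩
      left_inv := fun c => rfl
      right_inv := fun f => rfl }
  rw [Nat.card_congr e, Nat.card_eq_fintype_card, Fintype.card_embedding_eq, Fintype.card_fin,
    Fintype.card_fin]

lemma card_col_three (R : ℕ) :
    Nat.card (Col (SimpleGraph.cycleGraph 3) R) = R.descFactorial 3 := by
  rw [SimpleGraph.cycleGraph_three_eq_top]
  exact card_col_top 3 R

/-- colourings of the complete bipartite graph -/
lemma card_col_bip (s t R : ℕ) :
    Nat.card (Col (completeBipartiteGraph (Fin s) (Fin t)) R)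
      = ∑ x : Fin s → Fin R, (R - (univ.image x).card) ^ t := by
  classical
  have e : Col (completeBipartiteGraph (Fin s) (Fin t)) R ≃
      (Σ x : Fin s → Fin R, (Fin t → {b : Fin R // b ∉ univ.image x})) :=
    { toFun := fun c => ⟨fun i => c.1 (Sum.inl i), fun j => ⟨c.1 (Sum.inr j), by
        simp only [mem_image, mem_univ, true_and, not_exists]
        intro i h
        exact c.2 (Sum.inl i) (Sum.inr j) (by simp) h⟩⟩
      invFun := fun y => ⟨Sum.elim y.1 (fun j => (y.2 j).1), by
        rintro (i | i) (j | j) hij h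
        · simp at hij
        · have := (y.2 j).2
          simp only [mem_image, mem_univ, true_and, not_exists] at this
          exact this i (by simpa using h)
        · have := (y.2 i).2
          simp only [mem_image, mem_univ, true_and, not_exists] at this
          exact this j (by simpa using h.symm)
        · simp at hij⟩
      left_inv := fun c => by
        apply Subtype.ext
        funext i
        rcases i with i | i <;> rfl
      right_inv := fun y => rfl }
  rw [Nat.card_congr e, Nat.card_eq_fintype_card, Fintype.card_sigma]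
  refine Finset.sum_congr rfl fun x _ => ?_
  rw [Fintype.card_fun, Fintype.card_fin, Fintype.card_subtype_compl, Fintype.card_fin,
    Fintype.card_coe]

/-- reordering of four points -/
def e0 : Fin 2 ⊕ Fin 2 ≃ Fin 4 :=
    { toFun := Sum.elim ![0, 2] ![1, 3]
      invFun := ![Sum.inl 0, Sum.inr 0, Sum.inl 1, Sum.inr 1]
      left_inv := by decide
      right_inv := by decide }

lemma hadj : ∀ i j : Fin 2 ⊕ Fin 2, (completeBipartiteGraph (Fin 2) (Fin 2)).Adj i j ↔
      (SimpleGraph.cycleGraph 4).Adj (e0 i) (e0 j) := by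
  rintro (i | i) (j | j)
  · fin_cases i <;> fin_cases j <;> simp [e0, SimpleGraph.cycleGraph_adj] <;> decide
  · fin_cases i <;> fin_cases j <;> simp [e0, SimpleGraph.cycleGraph_adj] <;> decide
  · fin_cases i <;> fin_cases j <;> simp [e0, SimpleGraph.cycleGraph_adj] <;> decide
  · fin_cases i <;> fin_cases j <;> simp [e0, SimpleGraph.cycleGraph_adj] <;> decide

lemma card_col_four (r : ℕ) :
    Nat.card (Col (SimpleGraph.cycleGraph 4) (r + 2)) = (r + 1) ^ 4 + (r + 1) := by
  classical
  have e : Col (SimpleGraph.cycleGraph 4) (r + 2) ≃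
      Col (completeBipartiteGraph (Fin 2) (Fin 2)) (r + 2) :=
    { toFun := fun c => ⟨fun i => c.1 (e0 i), fun i j hij => c.2 _ _ ((hadj i j).1 hij)⟩
      invFun := fun c => ⟨fun i => c.1 (e0.symm i), fun i j hij => c.2 _ _ (by
        rw [hadj]; simpa using hij)⟩
      left_inv := fun c => by
        apply Subtype.ext; funext i; simp
      right_inv := fun c => by
        apply Subtype.ext; funext i; simp }
  rw [Nat.card_congr e, card_col_bip]
  have h1 : ∀ x : Fin 2 → Fin (r + 2), (univ.image x) = {x 0, x 1} := by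
    intro x
    ext a
    simp only [mem_image, mem_univ, true_and, Fin.exists_fin_two, mem_insert, mem_singleton]
    constructor
    · rintro (h | h)
      · left; exact h.symm
      · right; exact h.symm
    · rintro (h | h)
      · left; exact h.symm
      · right; exact h.symm
  rw [← Equiv.sum_comp (finTwoArrowEquiv (Fin (r + 2))).symm]
  rw [Fintype.sum_prod_type]
  have h2 : ∀ a b : Fin (r + 2),
      (r + 2 - (univ.image ((finTwoArrowEquiv (Fin (r + 2))).symm (a, b))).card) ^ 2
      = r ^ 2 + if a = b then 2 * r + 1 else 0 := by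
    intro a b
    rw [h1]
    simp only [finTwoArrowEquiv_symm_apply, Matrix.cons_val_zero, Matrix.cons_val_one]
    by_cases hab : a = b
    · subst hab
      simp
      ring
    · rw [card_pair hab]
      simp [hab]
  simp only [h2, Finset.sum_add_distrib, Finset.sum_ite_eq, mem_univ, if_true, Finset.sum_const,
    card_univ, Fintype.card_fin, smul_eq_mul]
  ring

lemma noninj (R s : ℕ) : (R : ℝ) ^ (s + 1) ≤ R * (R.descFactorial s : ℝ) + s ^ 2 * (R : ℝ) ^ s := by
  have hR : (0 : ℝ) ≤ R := Nat.cast_nonneg R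
  induction s with
  | zero => simp
  | succ s ih =>
    rcases Nat.lt_or_ge R s with h | h
    · have h1 : (R : ℝ) ≤ ((s + 1 : ℕ) : ℝ) ^ 2 := by
        have : R ≤ (s + 1) ^ 2 := by nlinarith
        exact_mod_cast this
      have h2 : (0 : ℝ) ≤ R * (R.descFactorial (s + 1) : ℝ) := by positivity
      have h3 : (R : ℝ) ^ (s + 1 + 1) ≤ ((s + 1 : ℕ) : ℝ) ^ 2 * (R : ℝ) ^ (s + 1) := by
        rw [pow_succ (R : ℝ) (s + 1), mul_comm]
        gcongr
      linarith
    · rw [Nat.descFactorial_succ]
      push_cast [Nat.cast_sub h]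
      have hs : (0 : ℝ) ≤ (R : ℝ) - s := by
        have : (s : ℝ) ≤ R := by exact_mod_cast h
        linarith
      have h1 := mul_le_mul_of_nonneg_left ih hs
      have h2 : (0 : ℝ) ≤ (R : ℝ) ^ s := by positivity
      have h3 : (0 : ℝ) ≤ s := Nat.cast_nonneg s
      have h4 : (0 : ℝ) ≤ (s : ℝ) ^ 3 * (R : ℝ) ^ s := by positivity
      have h5 : (0 : ℝ) ≤ (s + 1 : ℝ) * ((R : ℝ) ^ s * R) := by positivity
      have e1 : (R : ℝ) ^ (s + 1 + 1) = (R : ℝ) ^ s * R * R := by ring
      have e2 : (R : ℝ) ^ (s + 1) = (R : ℝ) ^ s * R := by ring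
      rw [e1, e2]
      rw [e2] at h1
      nlinarith

lemma one_add_pow_le (m : ℕ) (y : ℝ) (h0 : 0 ≤ y) (h1 : y ≤ 1) :
    (1 + y) ^ m ≤ 1 + (2 ^ m - 1) * y := by
  induction m with
  | zero => simp
  | succ m ih =>
    have h3 : (0 : ℝ) ≤ 2 ^ m - 1 := by
      have : (1 : ℝ) ≤ 2 ^ m := one_le_pow₀ (by norm_num)
      linarith
    have h4 : (2 ^ m - 1) * y * y ≤ (2 ^ m - 1) * y * 1 :=
      mul_le_mul_of_nonneg_left h1 (mul_nonneg h3 h0)
    calc (1 + y) ^ (m + 1) = (1 + y) ^ m * (1 + y) := pow_succ _ _
      _ ≤ (1 + (2 ^ m - 1) * y) * (1 + y) := by gcongr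
      _ = 1 + y + (2 ^ m - 1) * y + (2 ^ m - 1) * y * y := by ring
      _ ≤ 1 + y + (2 ^ m - 1) * y + (2 ^ m - 1) * y * 1 := by linarith
      _ = 1 + (2 ^ (m + 1) - 1) * y := by ring

end Pool.Agent.H554R3.Tri
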