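import Mathlib

/-!
Blow-ups of tensor powers of complete graphs: counts of labelled copies.
-/

set_option autoImplicit false

namespace Pool.Agent.H554R3.Tri

open Finset

/-- vertex labels: words of length `(r+1)^2` over `r+2` letters -/
abbrev HV (r : ℕ) := Fin ((r + 1) ^ 2) → Fin (r + 2)

/-- number of labels -/
noncomputable def NN (r : ℕ) : ℕ := Fintype.card (HV r)

lemma NN_eq (r : ℕ) : NN r = (r + 2) ^ ((r + 1) ^ 2) := by
  unfold NN; simp

lemma NN_pos (r : ℕ) : 0 < NN r := by rw [NN_eq]; positivity

/-- numbering of the labels -/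
noncomputable def ee (r : ℕ) : HV r ≃ Fin (NN r) := Fintype.equivFin (HV r)

/-- label of a vertex -/
noncomputable def lab (r n : ℕ) (u : Fin n) : HV r :=
  (ee r).symm ⟨u.val % NN r, Nat.mod_lt _ (NN_pos r)⟩

/-- the graph: blow-up of the tensor power of a complete graph -/
noncomputable def GG (r n : ℕ) : SimpleGraph (Fin n) where
  Adj u v := u.val < n / NN r * NN r ∧ v.val < n / NN r * NN r ∧ ∀ d, lab r n u d ≠ lab r n v d
  symm := ⟨fun u v h => ⟨h.2.1, h.1, fun d => (h.2.2 d).symm⟩⟩
  loopless := ⟨fun u h => h.2.2 ⟨0, by positivity⟩ rfl⟩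

variable {V : Type} [Fintype V] [DecidableEq V]

/-- proper colourings -/
abbrev Col (F : SimpleGraph V) (R : ℕ) := {c : V → Fin R // ∀ i j, F.Adj i j → c i ≠ c j}

/-- the copies -/
abbrev Emb (F : SimpleGraph V) {n : ℕ} (G : SimpleGraph (Fin n)) :=
  {f : V → Fin n | Function.Injective f ∧ ∀ i j, F.Adj i j → G.Adj (f i) (f j)}

lemma upper_count (F : SimpleGraph V) (hF : ∀ i, ∃ j, F.Adj i j) (r n : ℕ) :
    (Emb F (GG r n)).ncard ≤
      (n / NN r) ^ Fintype.card V * (Nat.card (Col F (r + 2))) ^ ((r + 1) ^ 2) := by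
  set q := n / NN r with hq
  have key : Nat.card (Emb F (GG r n)) ≤
      Nat.card ((V → Fin q) × (Fin ((r + 1) ^ 2) → Col F (r + 2))) := by
    have hlt : ∀ f : Emb F (GG r n), ∀ i, (f.1 i).val < q * NN r := by
      intro f i
      obtain ⟨j, hj⟩ := hF i
      exact (f.2.2 i j hj).1
    refine Nat.card_le_card_of_injective
      (fun f => (fun i => ⟨(f.1 i).val / NN r, Nat.div_lt_of_lt_mul (by
          rw [mul_comm]; exact hlt f i)⟩,
        fun d => ⟨fun i => lab r n (f.1 i) d, fun i j hij => (f.2.2 i j hij).2.2 d⟩)) ?_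
    intro f g hfg
    apply Subtype.ext
    funext i
    have h1 := congrArg Prod.fst hfg
    have h2 := congrArg Prod.snd hfg
    simp only at h1 h2
    have h3 : (f.1 i).val / NN r = (g.1 i).val / NN r := by
      have := congrFun h1 i
      simpa using this
    have h4 : lab r n (f.1 i) = lab r n (g.1 i) := by
      funext d
      have := congrFun h2 d
      have := congrFun (congrArg Subtype.val this) i
      exact this
    unfold lab at h4
    have h5 := (ee r).symm.injective h4
    have h6 : (f.1 i).val % NN r = (g.1 i).val % NN r := by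
      simpa using h5
    apply Fin.ext
    rw [← Nat.div_add_mod (f.1 i).val (NN r), ← Nat.div_add_mod (g.1 i).val (NN r), h3, h6]
  rw [Nat.card_prod, Nat.card_fun, Nat.card_fun, Nat.card_eq_fintype_card (α := V),
    Nat.card_eq_fintype_card (α := Fin q), Nat.card_eq_fintype_card (α := Fin ((r + 1) ^ 2)),
    Fintype.card_fin, Fintype.card_fin, Nat.card_coe_set_eq] at key
  exact key

lemma lower_count (F : SimpleGraph V) (r n : ℕ) :
      (n / NN r).descFactorial (Fintype.card V) * (Nat.card (Col F (r + 2))) ^ ((r + 1) ^ 2)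
      ≤ (Emb F (GG r n)).ncard := by
  set q := n / NN r with hq
  have hqn : q * NN r ≤ n := Nat.div_mul_le_self n (NN r)
  have hlt : ∀ (a : Fin q) (b : Fin (NN r)), a.val * NN r + b.val < q * NN r := by
    intro a b
    calc a.val * NN r + b.val < a.val * NN r + NN r := by omega
      _ = (a.val + 1) * NN r := by ring
      _ ≤ q * NN r := Nat.mul_le_mul_right _ a.2
  have hmod : ∀ (a : Fin q) (b : Fin (NN r)), (a.val * NN r + b.val) % NN r = b.val := by
    intro a b
    rw [Nat.add_comm, Nat.add_mul_mod_self_right]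
    exact Nat.mod_eq_of_lt b.2
  have hdiv : ∀ (a : Fin q) (b : Fin (NN r)), (a.val * NN r + b.val) / NN r = a.val := by
    intro a b
    rw [Nat.add_comm, Nat.add_mul_div_right _ _ (NN_pos r), Nat.div_eq_of_lt b.2, zero_add]
  have hlab : ∀ (a : Fin q) (x : HV r) (h : a.val * NN r + (ee r x).val < n),
      lab r n ⟨a.val * NN r + (ee r x).val, h⟩ = x := by
    intro a x h
    unfold lab
    rw [Equiv.symm_apply_eq]
    apply Fin.ext
    exact hmod a (ee r x)
  have key : Nat.card ((V ↪ Fin q) × (Fin ((r + 1) ^ 2) → Col F (r + 2))) ≤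
      Nat.card (Emb F (GG r n)) := by
    refine Nat.card_le_card_of_injective
      (fun x => ⟨fun i => ⟨(x.1 i).val * NN r + (ee r (fun d => (x.2 d).1 i)).val,
        (hlt _ _).trans_le hqn⟩, ?_, ?_⟩) ?_
    · intro i j hij
      have h1 := congrArg Fin.val hij
      simp only at h1
      have h2 := congrArg (· / NN r) h1
      simp only [hdiv] at h2
      exact x.1.injective (Fin.ext h2)
    · intro i j hij
      refine ⟨hlt _ _, hlt _ _, fun d => ?_⟩
      rw [hlab, hlab]
      exact (x.2 d).2 i j hij
    · intro x y hxy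
      have h0 : ∀ i, (x.1 i).val * NN r + (ee r (fun d => (x.2 d).1 i)).val
          = (y.1 i).val * NN r + (ee r (fun d => (y.2 d).1 i)).val := by
        intro i
        have := congrFun (congrArg Subtype.val hxy) i
        exact congrArg Fin.val this
      refine Prod.ext ?_ ?_
      · apply DFunLike.ext
        intro i
        have h2 := congrArg (· / NN r) (h0 i)
        simp only [hdiv] at h2
        exact Fin.ext h2
      · funext d
        apply Subtype.ext
        funext i
        have h2 := congrArg (· % NN r) (h0 i)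
        simp only [hmod] at h2
        have h3 := (ee r).injective (Fin.ext h2)
        exact congrFun h3 d
  rw [Nat.card_prod, Nat.card_fun, Nat.card_eq_fintype_card (α := V ↪ Fin q),
    Fintype.card_embedding_eq, Nat.card_eq_fintype_card (α := Fin ((r + 1) ^ 2)),
    Fintype.card_fin, Fintype.card_fin, Nat.card_coe_set_eq] at key
  exact key

end Pool.Agent.H554R3.Tri
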