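import Pool.Agent.H554R3.TriBip

/-!
Limits for blow-ups, and the diagonal choice.
-/

set_option autoImplicit false

namespace Pool.Agent.H554R3.Tri

open Finset Filter Topology

lemma lim_desc (k : ℕ) :
    Tendsto (fun n : ℕ => (n.descFactorial k : ℝ) / (n : ℝ) ^ k) atTop (𝓝 1) := by
  induction k with
  | zero => simp
  | succ k ih =>
    have h1 : Tendsto (fun n : ℕ => (((n - k : ℕ) : ℝ)) / (n : ℝ)) atTop (𝓝 1) := by
      have h2 : Tendsto (fun n : ℕ => 1 - (k : ℝ) / (n : ℝ)) atTop (𝓝 (1 - 0)) :=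
        tendsto_const_nhds.sub (tendsto_const_div_atTop_nhds_zero_nat (k : ℝ))
      rw [sub_zero] at h2
      refine h2.congr' ?_
      filter_upwards [eventually_ge_atTop (k + 1)] with n hn
      have : (n : ℝ) ≠ 0 := by
        have : 0 < n := by omega
        positivity
      rw [Nat.cast_sub (by omega)]
      field_simp
    have h3 := h1.mul ih
    rw [one_mul] at h3
    refine h3.congr' ?_
    filter_upwards [eventually_ge_atTop 1] with n hn
    have : (n : ℝ) ≠ 0 := by
      have : 0 < n := by omega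
      positivity
    rw [Nat.descFactorial_succ]
    push_cast
    field_simp
    ring

lemma lim_div (N : ℕ) (hN : 0 < N) :
    Tendsto (fun n : ℕ => ((n / N : ℕ) : ℝ) * N / n) atTop (𝓝 1) := by
  have hN' : (0 : ℝ) < N := by exact_mod_cast hN
  have h1 : Tendsto (fun n : ℕ => (n : ℝ) / N) atTop atTop :=
    tendsto_natCast_atTop_atTop.atTop_div_const hN'
  have h2 := (tendsto_nat_floor_div_atTop (R := ℝ)).comp h1
  refine h2.congr' ?_
  filter_upwards [eventually_ge_atTop 1] with n hn
  have hn' : (n : ℝ) ≠ 0 := by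
    have : 0 < n := by omega
    positivity
  simp only [Function.comp]
  rw [Nat.floor_div_eq_div]
  field_simp

lemma lim_up (k N : ℕ) (hN : 0 < N) :
    Tendsto (fun n : ℕ => ((n / N : ℕ) : ℝ) ^ k * (N : ℝ) ^ k / (n.descFactorial k : ℝ))
      atTop (𝓝 1) := by
  have h1 := ((lim_div N hN).pow k).div (lim_desc k) one_ne_zero
  rw [one_pow, div_one] at h1
  refine h1.congr' ?_
  filter_upwards [eventually_ge_atTop (k + 1)] with n hn
  have hn' : (n : ℝ) ≠ 0 := by
    have : 0 < n := by omega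
    positivity
  have hd : (n.descFactorial k : ℝ) ≠ 0 := by
    have : 0 < n.descFactorial k := Nat.descFactorial_pos.2 (by omega)
    positivity
  simp only [Pi.div_apply]
  rw [div_pow, mul_pow]
  field_simp

lemma lim_low (k N : ℕ) (hN : 0 < N) :
    Tendsto (fun n : ℕ => ((n / N).descFactorial k : ℝ) * (N : ℝ) ^ k / (n.descFactorial k : ℝ))
      atTop (𝓝 1) := by
  have hq : Tendsto (fun n : ℕ => n / N) atTop atTop := Nat.tendsto_div_const_atTop hN.ne'
  have h1 := ((lim_desc k).comp hq).mul (lim_up k N hN)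
  rw [one_mul] at h1
  refine h1.congr' ?_
  filter_upwards [hq.eventually (eventually_ge_atTop 1)] with n hn
  have hn' : ((n / N : ℕ) : ℝ) ≠ 0 := by
    have : 0 < n / N := by omega
    positivity
  simp only [Function.comp]
  field_simp

lemma diag (Q : ℕ → ℕ → Prop) (h : ∀ r, ∀ᶠ n in atTop, Q r n) :
    ∃ ρ : ℕ → ℕ, Tendsto ρ atTop atTop ∧ ∀ᶠ n in atTop, Q (ρ n) n := by
  classical
  have h' : ∀ r, ∃ n₀, ∀ m ≥ n₀, Q r m := fun r => eventually_atTop.1 (h r)
  choose n₀ hn₀ using h'
  refine ⟨fun n => Nat.findGreatest (fun r => ∀ m ≥ n, Q r m) n, ?_, ?_⟩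
  · rw [tendsto_atTop]
    intro b
    filter_upwards [eventually_ge_atTop (max (n₀ b) b)] with n hn
    exact Nat.le_findGreatest ((le_max_right _ _).trans hn)
      (fun m hm => hn₀ b m (((le_max_left _ _).trans hn).trans hm))
  · filter_upwards [eventually_ge_atTop (n₀ 0)] with n hn
    have h0 : ∀ m ≥ n, Q 0 m := fun m hm => hn₀ 0 m (hn.trans hm)
    have := Nat.findGreatest_spec (P := fun r => ∀ m ≥ n, Q r m) (Nat.zero_le n) h0
    exact this n le_rfl

/-- `n ^ k` against the falling factorial -/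
lemma pow_le_desc (n k : ℕ) (h : k ≤ n) : (n : ℝ) ^ k ≤ (k : ℝ) ^ k * (n.descFactorial k : ℝ) := by
  rcases Nat.eq_zero_or_pos k with hk | hk
  · subst hk; simp
  have h1 : n ≤ k * (n + 1 - k) := by
    obtain ⟨d, rfl⟩ := Nat.exists_eq_add_of_le h
    have : k + d + 1 - k = d + 1 := by omega
    rw [this]
    nlinarith
  have h2 : n ^ k ≤ k ^ k * n.descFactorial k :=
    calc n ^ k ≤ (k * (n + 1 - k)) ^ k := Nat.pow_le_pow_left h1 k
      _ = k ^ k * (n + 1 - k) ^ k := mul_pow _ _ _
      _ ≤ k ^ k * n.descFactorial k := Nat.mul_le_mul_left _ (Nat.pow_sub_le_descFactorial n k)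
  exact_mod_cast h2

end Pool.Agent.H554R3.Tri
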