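import Pool.Agent.H554R3.TriLim

/-!
Triangle counts are not controlled by `C₄` and `K_{s,t}` counts.
-/

set_option autoImplicit false

namespace Pool.Agent.H554R3.Tri

open Finset Filter Topology

/-- the density -/
noncomputable def pp (r : ℕ) : ℝ := (((r : ℝ) + 1) / (r + 2)) ^ ((r + 1) ^ 2)

lemma pp_pos (r : ℕ) : 0 < pp r := by unfold pp; positivity

lemma pp_le_one (r : ℕ) : pp r ≤ 1 := by
  unfold pp
  apply pow_le_one₀ (by positivity)
  rw [div_le_one (by positivity)]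
  linarith

variable {V : Type} [Fintype V]

lemma emb_le (F : SimpleGraph V) (hF : ∀ i, ∃ j, F.Adj i j) (r n e : ℕ) :
    ((Emb F (GG r n)).ncard : ℝ) / ((n.descFactorial (Fintype.card V) : ℝ) * pp r ^ e) ≤
      (((n / NN r : ℕ) : ℝ) ^ (Fintype.card V) * (NN r : ℝ) ^ (Fintype.card V) /
        (n.descFactorial (Fintype.card V) : ℝ)) *
      ((Nat.card (Col F (r + 2)) : ℝ) / (((r : ℝ) + 2) ^ (Fintype.card V) *
        (((r : ℝ) + 1) / (r + 2)) ^ e)) ^ ((r + 1) ^ 2) := by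
  classical
  have h := upper_count F hF r n
  have h' : ((Emb F (GG r n)).ncard : ℝ) ≤ ((n / NN r : ℕ) : ℝ) ^ Fintype.card V *
      (Nat.card (Col F (r + 2)) : ℝ) ^ ((r + 1) ^ 2) := by exact_mod_cast h
  have hp := pp_pos r
  have e1 : (NN r : ℝ) = ((r : ℝ) + 2) ^ ((r + 1) ^ 2) := by rw [NN_eq]; push_cast; rfl
  calc ((Emb F (GG r n)).ncard : ℝ) / ((n.descFactorial (Fintype.card V) : ℝ) * pp r ^ e)
      ≤ (((n / NN r : ℕ) : ℝ) ^ Fintype.card V *
      (Nat.card (Col F (r + 2)) : ℝ) ^ ((r + 1) ^ 2)) /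
        ((n.descFactorial (Fintype.card V) : ℝ) * pp r ^ e) := by gcongr
    _ = _ := by
      rw [e1, div_pow, mul_pow, ← pow_mul, ← pow_mul]
      unfold pp
      rw [← pow_mul, mul_comm ((r + 1) ^ 2) e, mul_comm ((r + 1) ^ 2) (Fintype.card V)]
      have h2 : ((r : ℝ) + 2) ^ (Fintype.card V * (r + 1) ^ 2) ≠ 0 := by positivity
      rcases Nat.eq_zero_or_pos (n.descFactorial (Fintype.card V)) with hd | hd
      · rw [hd]; simp
      · have hd' : (n.descFactorial (Fintype.card V) : ℝ) ≠ 0 := by positivity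
        have h3 : (((r : ℝ) + 1) / (r + 2)) ^ (e * (r + 1) ^ 2)
          = ((((r : ℝ) + 1) / (r + 2)) ^ e) ^ ((r + 1) ^ 2) := pow_mul _ _ _
        rw [h3]
        field_simp

lemma le_emb (F : SimpleGraph V) (r n e : ℕ) :
      (((n / NN r).descFactorial (Fintype.card V) : ℝ) * (NN r : ℝ) ^ (Fintype.card V) /
        (n.descFactorial (Fintype.card V) : ℝ)) *
      ((Nat.card (Col F (r + 2)) : ℝ) / (((r : ℝ) + 2) ^ (Fintype.card V) *
        (((r : ℝ) + 1) / (r + 2)) ^ e)) ^ ((r + 1) ^ 2) ≤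
    ((Emb F (GG r n)).ncard : ℝ) / ((n.descFactorial (Fintype.card V) : ℝ) * pp r ^ e) := by
  classical
  have h := lower_count F r n
  have h' : ((n / NN r).descFactorial (Fintype.card V) : ℝ) *
      (Nat.card (Col F (r + 2)) : ℝ) ^ ((r + 1) ^ 2) ≤ ((Emb F (GG r n)).ncard : ℝ) := by
    exact_mod_cast h
  have hp := pp_pos r
  have e1 : (NN r : ℝ) = ((r : ℝ) + 2) ^ ((r + 1) ^ 2) := by rw [NN_eq]; push_cast; rfl
  have e5 : (((n / NN r).descFactorial (Fintype.card V) : ℝ) * (NN r : ℝ) ^ (Fintype.card V) /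
        (n.descFactorial (Fintype.card V) : ℝ)) *
      ((Nat.card (Col F (r + 2)) : ℝ) / (((r : ℝ) + 2) ^ (Fintype.card V) *
        (((r : ℝ) + 1) / (r + 2)) ^ e)) ^ ((r + 1) ^ 2) =
      (((n / NN r).descFactorial (Fintype.card V) : ℝ) *
      (Nat.card (Col F (r + 2)) : ℝ) ^ ((r + 1) ^ 2)) /
        ((n.descFactorial (Fintype.card V) : ℝ) * pp r ^ e) := by
      have h6 : pp r ^ e = ((((r : ℝ) + 1) / (r + 2)) ^ e) ^ ((r + 1) ^ 2) := by
        unfold pp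
        rw [← pow_mul, mul_comm ((r + 1) ^ 2) e, pow_mul]
      have h7 : (((r : ℝ) + 2) ^ ((r + 1) ^ 2)) ^ Fintype.card V
          = (((r : ℝ) + 2) ^ Fintype.card V) ^ ((r + 1) ^ 2) := by
        rw [← pow_mul, mul_comm ((r + 1) ^ 2), pow_mul]
      rw [e1, h6, h7, div_pow, mul_pow]
      have h2 : (((r : ℝ) + 2) ^ Fintype.card V) ^ ((r + 1) ^ 2) ≠ 0 := by positivity
      rcases Nat.eq_zero_or_pos (n.descFactorial (Fintype.card V)) with hd | hd
      · rw [hd]; simp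
      · have hd' : (n.descFactorial (Fintype.card V) : ℝ) ≠ 0 := by positivity
        field_simp
  rw [e5]
  gcongr

lemma col_two_ratio (r : ℕ) :
    (Nat.card (Col (⊤ : SimpleGraph (Fin 2)) (r + 2)) : ℝ) / (((r : ℝ) + 2) ^ 2 *
        (((r : ℝ) + 1) / (r + 2)) ^ 1) = 1 := by
  rw [card_col_top]
  have : (r + 2).descFactorial 2 = (r + 2) * (r + 1) := by
    simp [Nat.descFactorial]; ring
  rw [this]
  push_cast
  field_simp

lemma col_three_ratio (r : ℕ) :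
    (Nat.card (Col (SimpleGraph.cycleGraph 3) (r + 2)) : ℝ) / (((r : ℝ) + 2) ^ 3 *
        (((r : ℝ) + 1) / (r + 2)) ^ 3) = 1 - 1 / ((r : ℝ) + 1) ^ 2 := by
  rw [card_col_three]
  have : (r + 2).descFactorial 3 = (r + 2) * (r + 1) * r := by
    simp [Nat.descFactorial]; ring
  rw [this]
  push_cast
  field_simp
  ring

lemma col_four_ratio (r : ℕ) :
    (Nat.card (Col (SimpleGraph.cycleGraph 4) (r + 2)) : ℝ) / (((r : ℝ) + 2) ^ 4 *
        (((r : ℝ) + 1) / (r + 2)) ^ 4) = 1 + 1 / ((r : ℝ) + 1) ^ 3 := by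
  rw [card_col_four]
  push_cast
  field_simp

lemma four_pow (r : ℕ) :
    1 ≤ (1 + 1 / ((r : ℝ) + 1) ^ 3) ^ ((r + 1) ^ 2) ∧
    (1 + 1 / ((r : ℝ) + 1) ^ 3) ^ ((r + 1) ^ 2) ≤ Real.exp (1 / ((r : ℝ) + 1)) := by
  have h0 : (0 : ℝ) < (r : ℝ) + 1 := by positivity
  constructor
  · apply one_le_pow₀
    have : 0 ≤ 1 / ((r : ℝ) + 1) ^ 3 := by positivity
    linarith
  · calc (1 + 1 / ((r : ℝ) + 1) ^ 3) ^ ((r + 1) ^ 2)
        ≤ (Real.exp (1 / ((r : ℝ) + 1) ^ 3)) ^ ((r + 1) ^ 2) := by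
          apply pow_le_pow_left₀ (by positivity)
          have := Real.add_one_le_exp (1 / ((r : ℝ) + 1) ^ 3)
          linarith
      _ = Real.exp (1 / ((r : ℝ) + 1)) := by
          rw [← Real.exp_nat_mul]
          congr 1
          push_cast
          field_simp

lemma three_pow (r : ℕ) :
    (1 - 1 / ((r : ℝ) + 1) ^ 2) ^ ((r + 1) ^ 2) ≤ Real.exp (-1) := by
  have h0 : (0 : ℝ) < (r : ℝ) + 1 := by positivity
  calc (1 - 1 / ((r : ℝ) + 1) ^ 2) ^ ((r + 1) ^ 2)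
      ≤ (Real.exp (-(1 / ((r : ℝ) + 1) ^ 2))) ^ ((r + 1) ^ 2) := by
        apply pow_le_pow_left₀
        · have : 1 / ((r : ℝ) + 1) ^ 2 ≤ 1 := by
            rw [div_le_one (by positivity)]
            have : (1 : ℝ) ≤ (r : ℝ) + 1 := by linarith [(Nat.cast_nonneg r : (0 : ℝ) ≤ r)]
            nlinarith
          linarith
        · have := Real.add_one_le_exp (-(1 / ((r : ℝ) + 1) ^ 2))
          linarith
    _ = Real.exp (-1) := by
        rw [← Real.exp_nat_mul]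
        congr 1
        push_cast
        field_simp

lemma growth (a : ℝ) (s : ℕ) (hs : 2 ≤ s) (r : ℕ) :
    ∀ᶠ n : ℕ in atTop, (r : ℝ) ≤ pp r / ((Real.log n) ^ a * (n : ℝ) ^ (-(1 / (s : ℝ)))) := by
  have hs' : (0 : ℝ) < 1 / (s : ℝ) := by
    have : 0 < s := by omega
    positivity
  have h1 := isLittleO_log_rpow_rpow_atTop a hs'
  have hc : (0 : ℝ) < pp r / ((r : ℝ) + 1) := div_pos (pp_pos r) (by positivity)
  have h2 := (h1.def hc)
  have h3 : ∀ᶠ n : ℕ in atTop, ‖Real.log (n : ℝ) ^ a‖ ≤ pp r / ((r : ℝ) + 1) *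
      ‖(n : ℝ) ^ (1 / (s : ℝ))‖ := tendsto_natCast_atTop_atTop.eventually h2
  filter_upwards [h3, eventually_ge_atTop 2] with n hn hn2
  have n2 : (2 : ℝ) ≤ n := by exact_mod_cast hn2
  have n0 : (0 : ℝ) < n := by linarith
  have hlog : 0 < Real.log n := Real.log_pos (by linarith)
  have hla : 0 < Real.log n ^ a := Real.rpow_pos_of_pos hlog a
  have hnp : 0 < (n : ℝ) ^ (1 / (s : ℝ)) := Real.rpow_pos_of_pos n0 _
  have hnm : 0 < (n : ℝ) ^ (-(1 / (s : ℝ))) := Real.rpow_pos_of_pos n0 _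
  rw [Real.norm_of_nonneg hla.le, Real.norm_of_nonneg hnp.le] at hn
  rw [le_div_iff₀ (mul_pos hla hnm)]
  have e : (n : ℝ) ^ (1 / (s : ℝ)) * (n : ℝ) ^ (-(1 / (s : ℝ))) = 1 := by
    rw [← Real.rpow_add n0]; simp
  have r0 : (0 : ℝ) ≤ r := Nat.cast_nonneg r
  calc (r : ℝ) * (Real.log n ^ a * (n : ℝ) ^ (-(1 / (s : ℝ))))
      ≤ (r : ℝ) * ((pp r / ((r : ℝ) + 1) * (n : ℝ) ^ (1 / (s : ℝ))) *
        (n : ℝ) ^ (-(1 / (s : ℝ)))) := by gcongr
    _ = (r : ℝ) * (pp r / ((r : ℝ) + 1)) * ((n : ℝ) ^ (1 / (s : ℝ)) *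
        (n : ℝ) ^ (-(1 / (s : ℝ)))) := by ring
    _ = ((r : ℝ) / ((r : ℝ) + 1)) * pp r := by rw [e]; ring
    _ ≤ 1 * pp r := by
      have := pp_pos r
      gcongr
      rw [div_le_one (by positivity)]
      linarith
    _ = pp r := one_mul _

/-- the bound for `K_{s,t}`, valid for every `n` and `r` -/
lemma bip_all (s t r n : ℕ) (hs : 1 ≤ s) (ht : 1 ≤ t) :
    ((Emb (completeBipartiteGraph (Fin s) (Fin t)) (GG r n)).ncard : ℝ) /
      ((n.descFactorial (s + t) : ℝ) * pp r ^ (s * t)) ≤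
      ((s + t : ℕ) : ℝ) ^ (s + t) * Real.exp (s ^ 2 * 2 ^ (s * t + 1)) := by
  rcases Nat.lt_or_ge n (s + t) with hn | hn
  · have : n.descFactorial (s + t) = 0 := Nat.descFactorial_eq_zero_iff_lt.2 hn
    rw [this]
    simp
    positivity
  have hF : ∀ i : Fin s ⊕ Fin t, ∃ j, (completeBipartiteGraph (Fin s) (Fin t)).Adj i j := by
    rintro (i | i)
    · exact ⟨Sum.inr ⟨0, ht⟩, by simp⟩
    · exact ⟨Sum.inl ⟨0, hs⟩, by simp⟩
  have h1 := emb_le (completeBipartiteGraph (Fin s) (Fin t)) hF r n (s * t)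
  have hcard : Fintype.card (Fin s ⊕ Fin t) = s + t := by simp
  rw [hcard] at h1
  refine h1.trans ?_
  have hd : (0 : ℝ) < (n.descFactorial (s + t) : ℝ) := by
    exact_mod_cast Nat.descFactorial_pos.2 hn
  have h2 : ((n / NN r : ℕ) : ℝ) ^ (s + t) * (NN r : ℝ) ^ (s + t) /
        (n.descFactorial (s + t) : ℝ) ≤ ((s + t : ℕ) : ℝ) ^ (s + t) := by
    rw [div_le_iff₀ hd, ← mul_pow]
    refine le_trans ?_ (pow_le_desc n (s + t) hn)
    apply pow_le_pow_left₀ (by positivity)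
    exact_mod_cast Nat.div_mul_le_self n (NN r)
  have h3 : ((Nat.card (Col (completeBipartiteGraph (Fin s) (Fin t)) (r + 2)) : ℝ) /
      (((r : ℝ) + 2) ^ (s + t) * (((r : ℝ) + 1) / (r + 2)) ^ (s * t))) ^ ((r + 1) ^ 2)
      ≤ Real.exp (s ^ 2 * 2 ^ (s * t + 1)) := by
    have h4 : (Nat.card (Col (completeBipartiteGraph (Fin s) (Fin t)) (r + 2)) : ℝ) /
      (((r : ℝ) + 2) ^ (s + t) * (((r : ℝ) + 1) / (r + 2)) ^ (s * t))
      ≤ Real.exp ((s ^ 2 * 2 ^ (s * t + 1)) / ((r : ℝ) + 2) ^ 2) := by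
      rw [div_le_iff₀ (by positivity)]
      refine (bip_bound s t r).trans ?_
      rw [mul_comm]
      apply mul_le_mul_of_nonneg_right _ (by positivity)
      have := Real.add_one_le_exp ((s ^ 2 * 2 ^ (s * t + 1)) / ((r : ℝ) + 2) ^ 2)
      linarith
    calc _ ≤ (Real.exp ((s ^ 2 * 2 ^ (s * t + 1)) / ((r : ℝ) + 2) ^ 2)) ^ ((r + 1) ^ 2) := by
          apply pow_le_pow_left₀ (by positivity) h4
      _ = Real.exp ((s ^ 2 * 2 ^ (s * t + 1)) * (((r : ℝ) + 1) ^ 2 / ((r : ℝ) + 2) ^ 2)) := by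
          rw [← Real.exp_nat_mul]
          congr 1
          push_cast
          field_simp
      _ ≤ Real.exp ((s ^ 2 * 2 ^ (s * t + 1)) * 1) := by
          apply Real.exp_le_exp.2
          have : ((r : ℝ) + 1) ^ 2 / ((r : ℝ) + 2) ^ 2 ≤ 1 := by
            rw [div_le_one (by positivity)]
            gcongr
            norm_num
          gcongr
      _ = _ := by rw [mul_one]
  exact mul_le_mul h2 h3 (by positivity) (by positivity)

theorem main (s : ℕ) (hs : 2 ≤ s) (a : ℝ) :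
    ∃ p : ℕ → ℝ, (∀ n, 0 < p n ∧ p n ≤ 1) ∧
      Tendsto (fun n : ℕ => p n / ((Real.log n) ^ a * (n : ℝ) ^ (-(1 / (s : ℝ))))) atTop atTop ∧
      ∃ G : ∀ n : ℕ, SimpleGraph (Fin n),
          Tendsto (fun n : ℕ =>
            ((Emb (⊤ : SimpleGraph (Fin 2)) (G n)).ncard : ℝ) /
              ((n.descFactorial 2 : ℝ) * p n ^ 1)) atTop (𝓝 1) ∧
          Tendsto (fun n : ℕ =>
            ((Emb (SimpleGraph.cycleGraph 4) (G n)).ncard : ℝ) /
              ((n.descFactorial 4 : ℝ) * p n ^ 4)) atTop (𝓝 1) ∧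
          (∀ t : ℕ, 1 ≤ t → ∃ C : ℝ, ∀ n : ℕ,
            ((Emb (completeBipartiteGraph (Fin s) (Fin t)) (G n)).ncard : ℝ) /
              ((n.descFactorial (s + t) : ℝ) * p n ^ (s * t)) ≤ C) ∧
          ∀ᶠ n : ℕ in atTop,
            ((Emb (SimpleGraph.cycleGraph 3) (G n)).ncard : ℝ) /
              ((n.descFactorial 3 : ℝ) * p n ^ 3) ≤ 3 / 4 := by
  -- the events
  have hev : ∀ r : ℕ, ∀ᶠ n : ℕ in atTop,
      (r : ℝ) ≤ pp r / ((Real.log n) ^ a * (n : ℝ) ^ (-(1 / (s : ℝ)))) ∧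
      (((n / NN r : ℕ) : ℝ) ^ 2 * (NN r : ℝ) ^ 2 / (n.descFactorial 2 : ℝ) ≤ 1 + 1 / ((r : ℝ) + 1)) ∧
      (((n / NN r : ℕ) : ℝ) ^ 3 * (NN r : ℝ) ^ 3 / (n.descFactorial 3 : ℝ) ≤ 2) ∧
      (((n / NN r : ℕ) : ℝ) ^ 4 * (NN r : ℝ) ^ 4 / (n.descFactorial 4 : ℝ) ≤ 1 + 1 / ((r : ℝ) + 1)) ∧
      (1 - 1 / ((r : ℝ) + 1) ≤
        ((n / NN r).descFactorial 2 : ℝ) * (NN r : ℝ) ^ 2 / (n.descFactorial 2 : ℝ)) ∧
      (1 - 1 / ((r : ℝ) + 1) ≤
        ((n / NN r).descFactorial 4 : ℝ) * (NN r : ℝ) ^ 4 / (n.descFactorial 4 : ℝ)) := by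
    intro r
    have hr : (0 : ℝ) < 1 / ((r : ℝ) + 1) := by positivity
    have hN := NN_pos r
    filter_upwards [growth a s hs r,
      (lim_up 2 (NN r) hN).eventually_le_const (show (1 : ℝ) < 1 + 1 / ((r : ℝ) + 1) by linarith),
      (lim_up 3 (NN r) hN).eventually_le_const (show (1 : ℝ) < 2 by norm_num),
      (lim_up 4 (NN r) hN).eventually_le_const (show (1 : ℝ) < 1 + 1 / ((r : ℝ) + 1) by linarith),
      (lim_low 2 (NN r) hN).eventually_const_le (show 1 - 1 / ((r : ℝ) + 1) < (1 : ℝ) by linarith),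
      (lim_low 4 (NN r) hN).eventually_const_le (show 1 - 1 / ((r : ℝ) + 1) < (1 : ℝ) by linarith)]
      with n h1 h2 h3 h4 h5 h6
    exact ⟨h1, h2, h3, h4, h5, h6⟩
  obtain ⟨ρ, hρ, hQ⟩ := diag _ hev
  have hρR : Tendsto (fun n => (ρ n : ℝ)) atTop atTop := tendsto_natCast_atTop_atTop.comp hρ
  have hρ1 : Tendsto (fun n => (ρ n : ℝ) + 1) atTop atTop := tendsto_atTop_add_const_right _ _ hρR
  have hinv : Tendsto (fun n => 1 / ((ρ n : ℝ) + 1)) atTop (𝓝 0) := by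
    refine (hρ1.inv_tendsto_atTop).congr fun n => ?_
    simp
  have hlo : Tendsto (fun n => 1 - 1 / ((ρ n : ℝ) + 1)) atTop (𝓝 1) := by
    simpa using (tendsto_const_nhds (x := (1 : ℝ))).sub hinv
  have hhi : Tendsto (fun n => 1 + 1 / ((ρ n : ℝ) + 1)) atTop (𝓝 1) := by
    simpa using (tendsto_const_nhds (x := (1 : ℝ))).add hinv
  refine ⟨fun n => pp (ρ n), fun n => ⟨pp_pos _, pp_le_one _⟩, ?_, fun n => GG (ρ n) n,
    ?_, ?_, ?_, ?_⟩
  · refine tendsto_atTop_mono' _ ?_ hρR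
    filter_upwards [hQ] with n hn
    exact hn.1
  · refine tendsto_of_tendsto_of_tendsto_of_le_of_le' hlo hhi ?_ ?_
    · filter_upwards [hQ] with n hn
      have h1 := le_emb (⊤ : SimpleGraph (Fin 2)) (ρ n) n 1
      rw [Fintype.card_fin, col_two_ratio, one_pow, mul_one] at h1
      exact hn.2.2.2.2.1.trans h1
    · filter_upwards [hQ] with n hn
      have hF : ∀ i : Fin 2, ∃ j, (⊤ : SimpleGraph (Fin 2)).Adj i j := by
        intro i
        fin_cases i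
        · exact ⟨1, by simp⟩
        · exact ⟨0, by simp⟩
      have h1 := emb_le (⊤ : SimpleGraph (Fin 2)) hF (ρ n) n 1
      rw [Fintype.card_fin, col_two_ratio, one_pow, mul_one] at h1
      exact h1.trans hn.2.1
  · have hhi4 : Tendsto (fun n => (1 + 1 / ((ρ n : ℝ) + 1)) * Real.exp (1 / ((ρ n : ℝ) + 1)))
        atTop (𝓝 1) := by
      have h1 : Tendsto (fun n => Real.exp (1 / ((ρ n : ℝ) + 1))) atTop (𝓝 (Real.exp 0)) :=
        (Real.continuous_exp.tendsto 0).comp hinv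
      rw [Real.exp_zero] at h1
      simpa using hhi.mul h1
    refine tendsto_of_tendsto_of_tendsto_of_le_of_le' hlo hhi4 ?_ ?_
    · filter_upwards [hQ] with n hn
      have h1 := le_emb (SimpleGraph.cycleGraph 4) (ρ n) n 4
      rw [Fintype.card_fin, col_four_ratio] at h1
      refine le_trans ?_ h1
      refine hn.2.2.2.2.2.trans ?_
      have h2 := (four_pow (ρ n)).1
      exact le_mul_of_one_le_right (by positivity) h2
    · filter_upwards [hQ] with n hn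
      have hF : ∀ i : Fin 4, ∃ j, (SimpleGraph.cycleGraph 4).Adj i j := by
        intro i
        exact ⟨i + 1, by
          fin_cases i <;> simp [SimpleGraph.cycleGraph_adj] <;> decide⟩
      have h1 := emb_le (SimpleGraph.cycleGraph 4) hF (ρ n) n 4
      rw [Fintype.card_fin, col_four_ratio] at h1
      refine h1.trans ?_
      exact mul_le_mul hn.2.2.2.1 (four_pow (ρ n)).2 (by positivity) (by positivity)
  · intro t ht
    exact ⟨_, fun n => bip_all s t (ρ n) n (by omega) ht⟩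
  · filter_upwards [hQ] with n hn
    have hF : ∀ i : Fin 3, ∃ j, (SimpleGraph.cycleGraph 3).Adj i j := by
      intro i
      rw [SimpleGraph.cycleGraph_three_eq_top]
      exact ⟨i + 1, by
        fin_cases i <;> simp⟩
    have h1 := emb_le (SimpleGraph.cycleGraph 3) hF (ρ n) n 3
    rw [Fintype.card_fin, col_three_ratio] at h1
    refine h1.trans ?_
    have h2 := three_pow (ρ n)
    have h3 := hn.2.2.1
    have h0 : (0 : ℝ) ≤ (1 - 1 / ((ρ n : ℝ) + 1) ^ 2) ^ ((ρ n + 1) ^ 2) := by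
      apply pow_nonneg
      have : 1 / ((ρ n : ℝ) + 1) ^ 2 ≤ 1 := by
        rw [div_le_one (by positivity)]
        have : (1 : ℝ) ≤ (ρ n : ℝ) + 1 := by linarith [(Nat.cast_nonneg (ρ n) : (0 : ℝ) ≤ (ρ n : ℝ))]
        nlinarith
      linarith
    calc _ ≤ 2 * Real.exp (-1) := mul_le_mul h3 h2 h0 (by norm_num)
      _ ≤ 3 / 4 := by
        have h5 := Real.exp_one_gt_d9
        rw [Real.exp_neg, ← div_eq_mul_inv, div_le_iff₀ (by positivity)]
        linarith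

end Pool.Agent.H554R3.Tri
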